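import Pool.Agent.Q251.TE.Reg

/-!
# Total colourings of blow-ups of regular graphs with a precoloured matching: bipartite graphs
-/

set_option autoImplicit false

namespace Pool.Agent.Q251.TE

open Finset SimpleGraph Pool.Agent.Q251.TC

/-- Every prescribed total colouring of a distance-3 matching between the classes extends. -/
def RegExt {W : Type} (Γ : SimpleGraph W) (r m : ℕ) : Prop :=
  ∀ (U : Set W) (p : W → W), (∀ v ∈ U, p v ∈ U ∧ p (p v) = v ∧ Γ.Adj v (p v)) →
    (∀ v ∈ U, ∀ w ∈ U, v ≠ w → (Γ.Adj v w ∨ ∃ x, Γ.Adj x v ∧ Γ.Adj x w) → w = p v) →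
    ∀ (α γ : W → ℕ), (∀ v ∈ U, α v < r * m + 2) → (∀ v ∈ U, γ v < r * m + 2) →
      (∀ v ∈ U, α v ≠ α (p v)) → (∀ v ∈ U, γ v ≠ α v) → (∀ v ∈ U, γ (p v) = γ v) →
    ∃ (g : W → ℕ) (ψ : W × Fin m → W × Fin m → ℕ) (k : W → Fin m),
      (∀ v, g v < r * m + 2) ∧ (∀ x y, ψ x y < r * m + 2) ∧ (∀ u v, Γ.Adj u v → g u ≠ g v) ∧
      (∀ x y, ψ x y = ψ y x) ∧
      (∀ x y z, Γ.Adj x.1 y.1 → Γ.Adj x.1 z.1 → y ≠ z → ψ x y ≠ ψ x z) ∧
      (∀ x y, Γ.Adj x.1 y.1 → ψ x y ≠ g x.1) ∧
      (∀ v ∈ U, g v = α v) ∧ ∀ v ∈ U, ψ (v, k v) (p v, k (p v)) = γ v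

open Classical in
/-- the involution of the matching -/
theorem exists_invol {W : Type} (U : Set W) (p : W → W)
    (hp : ∀ v ∈ U, p v ∈ U ∧ p (p v) = v) : ∃ π : Equiv.Perm W, ∀ v ∈ U, π v = p v := by
  let q : W → W := fun v => if v ∈ U then p v else v
  have hq : Function.Involutive q := by
    intro v
    by_cases hv : v ∈ U
    · have h1 : q v = p v := if_pos hv
      have h2 : q (p v) = p (p v) := if_pos (hp v hv).1
      rw [h1, h2, (hp v hv).2]
    · have h1 : q v = v := if_neg hv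
      rw [h1, h1]
  exact ⟨hq.toPerm q, fun v hv => if_pos hv⟩

theorem regExt_nonbip {V : Type} [Finite V] {G : SimpleGraph V} {r h m : ℕ} (hr : 3 ≤ r)
    (hreg : ∀ v, (G.neighborSet v).ncard = r) (hnb : ∀ v, ¬ Bip G v) (hm : m = 2 * h)
    (hbig : 6 * Nat.card V ≤ h) : RegExt G r m := by
  intro U p hp hU3 α γ hα hγ hαα hγα hγγ
  obtain ⟨π, hπ⟩ := exists_invol U p (fun v hv => ⟨(hp v hv).1, (hp v hv).2.1⟩)
  obtain ⟨g, ψ, k, k1, k2, k3, k4, k5, k6, k7, k8⟩ := reg_ext hr hreg hnb hm hbig U π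
    (by
      intro v hv
      obtain ⟨h1, h2, h3⟩ := hp v hv
      rw [hπ v hv, hπ _ h1]
      exact ⟨h1, h2, h3⟩)
    (by
      intro v hv w hw h1 h2
      rw [hπ v hv]
      exact hU3 v hv w hw h1 h2)
    α γ hα hγ
    (fun v hv => by rw [hπ v hv]; exact hαα v hv) hγα
    (fun v hv => by rw [hπ v hv]; exact hγγ v hv)
  refine ⟨g, ψ, k, k1, k2, k3, k4, k5, k6, k7, fun v hv => ?_⟩
  have h1 := k8 v hv
  rw [hπ v hv] at h1
  exact h1

/-- A permutation along edges through a given arc. -/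
theorem perm_through {V : Type} [Finite V] {G : SimpleGraph V} {r : ℕ}
    (hreg : ∀ v, (G.neighborSet v).ncard = r) (v w : V) (hvw : G.Adj v w) :
    ∃ τ : Equiv.Perm V, τ v = w ∧ ∀ u, G.Adj u (τ u) := by
  classical
  obtain ⟨s, h1, h2⟩ := perms hreg r le_rfl
  have h3 : (Set.range (fun i => s i v)) = G.neighborSet v := by
    refine Set.eq_of_subset_of_ncard_le ?_ ?_ (Set.toFinite _)
    · rintro _ ⟨i, rfl⟩
      exact h1 i v
    · have h4 : Function.Injective (fun i => s i v) := fun i j h => h2 i j v h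
      rw [hreg, ← Set.image_univ, Set.ncard_image_of_injective _ h4, Set.ncard_univ,
        Nat.card_eq_fintype_card, Fintype.card_fin]
  have h5 : w ∈ Set.range (fun i => s i v) := by
    rw [h3]
    exact hvw
  obtain ⟨i, hi⟩ := h5
  exact ⟨s i, hi, h1 i⟩

theorem regExt_bip {V : Type} [Finite V] {G : SimpleGraph V} {r h m : ℕ} (hr : 0 < r)
    (hreg : ∀ v, (G.neighborSet v).ncard = r) (side : V → Bool)
    (hside : ∀ u v, G.Adj u v → side u ≠ side v) (hm : m = 2 * h)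
    (hbig : Nat.card V ≤ h) : RegExt G r m := by
  classical
  have := Fintype.ofFinite V
  intro U p hp hU3 α γ hα hγ hαα hγα hγγ
  rcases isEmpty_or_nonempty V with hV | hV
  · exact ⟨fun _ => 0, fun _ _ => 0, fun v => hV.elim v, fun v => hV.elim v,
      fun x => hV.elim x.1, fun v => hV.elim v, fun x => hV.elim x.1, fun x => hV.elim x.1,
      fun x => hV.elim x.1, fun v => hV.elim v, fun v => hV.elim v⟩
  rw [Nat.card_eq_fintype_card] at hbig
  obtain ⟨n, hn⟩ : ∃ n, n = Fintype.card V := ⟨_, rfl⟩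
  rw [← hn] at hbig
  have hn1 : 0 < n := by rw [hn]; exact Fintype.card_pos
  have hrm : m ≤ r * m := Nat.le_mul_of_pos_left m hr
  -- the colours of the matching
  let UF : Finset V := univ.filter (fun v => v ∈ U)
  have hUF : ∀ v, v ∈ UF ↔ v ∈ U := fun v => by simp [UF]
  have hUc : UF.card ≤ n := by rw [hn]; exact card_le_univ _
  let A : Finset ℕ := UF.image α ∪ UF.image γ
  have hAc : A.card ≤ 2 * n := by
    refine (card_union_le _ _).trans ?_
    have h1 := card_image_le (s := UF) (f := α)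
    have h2 := card_image_le (s := UF) (f := γ)
    omega
  have hA1 : ∀ v ∈ U, α v ∈ A := fun v hv =>
    mem_union_left _ (mem_image_of_mem α ((hUF v).2 hv))
  have hA2 : ∀ v ∈ U, γ v ∈ A := fun v hv =>
    mem_union_right _ (mem_image_of_mem γ ((hUF v).2 hv))
  have hA3 : ∀ c ∈ A, c < r * m + 2 := by
    intro c hc
    rcases mem_union.1 hc with h1 | h1
    · obtain ⟨v, hv, rfl⟩ := mem_image.1 h1
      exact hα v ((hUF v).1 hv)
    · obtain ⟨v, hv, rfl⟩ := mem_image.1 h1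
      exact hγ v ((hUF v).1 hv)
  have hAr : A ⊆ range (r * m + 2) := fun c hc => mem_range.2 (hA3 c hc)
  obtain ⟨R, hR⟩ : ∃ R : Finset ℕ, R = range (r * m + 2) \ A := ⟨_, rfl⟩
  have hRm : ∀ c, c ∈ R ↔ c < r * m + 2 ∧ c ∉ A := by
    intro c
    rw [hR, mem_sdiff, mem_range]
  have hRc : 1 < R.card := by
    rw [hR, card_sdiff_of_subset hAr, card_range]
    omega
  obtain ⟨a, ha, b, hb, hab⟩ := one_lt_card.1 hRc
  obtain ⟨ha1, ha2⟩ := (hRm a).1 ha
  obtain ⟨hb1, hb2⟩ := (hRm b).1 hb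
  let sd : V → ℕ := fun v => if side v = true then a else b
  have hsd1 : ∀ v, sd v < r * m + 2 := by
    intro v
    simp only [sd]
    split_ifs <;> assumption
  have hsd2 : ∀ v, sd v ∉ A := by
    intro v
    simp only [sd]
    split_ifs <;> assumption
  have hsd3 : ∀ u v, G.Adj u v → sd u ≠ sd v := by
    intro u v huv
    have h1 := hside u v huv
    simp only [sd]
    cases hu : side u <;> cases hv : side v <;> rw [hu, hv] at h1
    · exact absurd rfl h1
    · simpa using hab.symm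
    · simpa using hab
    · exact absurd rfl h1
  have hsd4 : ∀ v, sd v = a ∨ sd v = b := by
    intro v
    simp only [sd]
    split_ifs
    · exact Or.inl rfl
    · exact Or.inr rfl
  let g : V → ℕ := fun v => if v ∈ U then α v else sd v
  have hg1 : ∀ v, v ∈ U → g v = α v := fun v hv => if_pos hv
  have hg2 : ∀ v, v ∉ U → g v = sd v := fun v hv => if_neg hv
  -- special colours
  let S : Finset ℕ := UF.image γ
  have hSU : ∀ v ∈ U, γ v ∈ S := fun v hv => mem_image_of_mem γ ((hUF v).2 hv)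
  have hSc : S.card ≤ n := card_image_le.trans hUc
  have hjc : Fintype.card {c // c ∈ S} ≤ Fintype.card (Fin m) := by
    rw [Fintype.card_coe, Fintype.card_fin]
    omega
  obtain ⟨j⟩ := Function.Embedding.nonempty_of_card_le hjc
  have hSA : S ⊆ A := subset_union_right
  let F : Finset ℕ := insert a (insert b S)
  have hFc : F.card = S.card + 2 := by
    have h1 : b ∉ S := fun h1 => hb2 (hSA h1)
    have h2 : a ∉ insert b S := by
      intro h2
      rcases mem_insert.1 h2 with h3 | h3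
      · exact hab h3
      · exact ha2 (hSA h3)
    rw [card_insert_of_notMem h2, card_insert_of_notMem h1]
  have hFr : F ⊆ range (r * m + 2) := by
    intro c hc
    rcases mem_insert.1 hc with h1 | h1
    · rw [h1]
      exact mem_range.2 ha1
    · rcases mem_insert.1 h1 with h2 | h2
      · rw [h2]
        exact mem_range.2 hb1
      · exact hAr (hSA h2)
  obtain ⟨T, hT⟩ : ∃ T : Finset ℕ, T = range (r * m + 2) \ F := ⟨_, rfl⟩
  have hTm : ∀ c, c ∈ T ↔ c < r * m + 2 ∧ c ∉ F := by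
    intro c
    rw [hT, mem_sdiff, mem_range]
  obtain ⟨N, hN⟩ : ∃ N, N = T.card := ⟨_, rfl⟩
  have hNS : N + S.card = r * m := by
    have h1 := card_le_card hFr
    rw [card_range] at h1
    rw [hN, hT, card_sdiff_of_subset hFr, card_range]
    omega
  have eN : {c // c ∈ T} ≃ Fin N := Finset.equivFinOfCardEq hN.symm
  -- permutations
  have hτ : ∀ v, ∃ τ : Equiv.Perm V, (v ∈ U → τ v = p v) ∧ ∀ u, G.Adj u (τ u) := by
    intro v
    by_cases hv : v ∈ U
    · obtain ⟨τ, h1, h2⟩ := perm_through hreg v (p v) (hp v hv).2.2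
      exact ⟨τ, fun _ => h1, h2⟩
    · obtain ⟨τ, h2⟩ := exists_perm hr hreg
      exact ⟨τ, fun h1 => absurd h1 hv, h2⟩
  choose τ hτ1 hτ2 using hτ
  obtain ⟨o⟩ : Nonempty (V ≃ Fin n) := ⟨Fintype.equivFinOfCardEq hn.symm⟩
  let vz : ℕ → V := fun z => if hz : z < n then o.symm ⟨z, hz⟩ else Classical.arbitrary V
  have hvz : ∀ v, vz (o v) = v := by
    intro v
    have h1 : vz (o v) = o.symm ⟨(o v : ℕ), (o v).2⟩ := dif_pos (o v).2
    rw [h1]
    exact o.symm_apply_apply v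
  have hpos : 0 < S.card + N := by
    have : 0 < r * m := lt_of_lt_of_le (by omega) hrm
    omega
  have hne : Nonempty ({c // c ∈ S} ⊕ Fin N) := by
    rcases Nat.eq_zero_or_pos S.card with h0 | h0
    · exact ⟨Sum.inr ⟨0, by omega⟩⟩
    · obtain ⟨c, hc⟩ := card_pos.1 h0
      exact ⟨Sum.inl ⟨c, hc⟩⟩
  have hcount : h * (r * m) ≤ h * N + (Set.univ : Set ({c // c ∈ S} × Fin h)).ncard := by
    rw [Set.ncard_univ, Nat.card_eq_fintype_card, Fintype.card_prod, Fintype.card_coe,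
      Fintype.card_fin, mul_comm S.card h, ← mul_add, hNS]
  obtain ⟨ψ, h1, h2, -, h4⟩ := lab2 (m := m) (h := h) (N := N) (G := G) hne hm hreg
    j j.injective (fun _ z => τ (vz z)) (fun _ _ => Set.univ) (fun c z u _ => hτ2 _ u)
    (fun u => hcount) (fun u => hcount)
  let lb : {c // c ∈ S} ⊕ Fin N → ℕ := Sum.elim (fun c => c.1) (fun i => (eN.symm i).1)
  have hlb1 : ∀ c : {c // c ∈ S}, lb (Sum.inl c) = c.1 := fun _ => rfl
  have hlb2 : ∀ i, lb (Sum.inr i) ∉ F := fun i => ((hTm _).1 (eN.symm i).2).2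
  have hSF : ∀ c, c ∈ S → c ∈ F := fun c hc => mem_insert_of_mem (mem_insert_of_mem hc)
  have hlb3 : Function.Injective lb := by
    rintro (c | c) (d | d) h5
    · exact congrArg Sum.inl (Subtype.ext h5)
    · exfalso
      refine hlb2 d ?_
      rw [← h5]
      exact hSF _ c.2
    · exfalso
      refine hlb2 c ?_
      rw [h5]
      exact hSF _ d.2
    · exact congrArg Sum.inr (eN.symm.injective (Subtype.ext h5))
  have hlb4 : ∀ x, lb x < r * m + 2 := by
    rintro (c | c)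
    · exact mem_range.1 (hFr (hSF _ c.2))
    · exact ((hTm _).1 (eN.symm c).2).1
  have hlb5 : ∀ x v, lb x ≠ sd v := by
    have h5 : ∀ x, lb x ≠ a ∧ lb x ≠ b := by
      rintro (c | c)
      · refine ⟨fun h5 => ha2 (hSA ?_), fun h5 => hb2 (hSA ?_)⟩
        · rw [← h5]
          exact c.2
        · rw [← h5]
          exact c.2
      · refine ⟨fun h5 => hlb2 c ?_, fun h5 => hlb2 c ?_⟩
        · rw [h5]
          exact mem_insert_self _ _
        · rw [h5]
          exact mem_insert_of_mem (mem_insert_self _ _)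
    intro x v
    rcases hsd4 v with h6 | h6 <;> rw [h6]
    · exact (h5 x).1
    · exact (h5 x).2
  -- recolouring at the matching
  let φ : V × Fin m → V × Fin m → ℕ := fun x y => if G.Adj x.1 y.1 then
    (if x.1 ∈ U ∧ lb (ψ x y) = α x.1 then sd x.1 else
      if y.1 ∈ U ∧ lb (ψ x y) = α y.1 then sd y.1 else lb (ψ x y)) else 0
  have hφ : ∀ x y, G.Adj x.1 y.1 → φ x y = (if x.1 ∈ U ∧ lb (ψ x y) = α x.1 then sd x.1 else
      if y.1 ∈ U ∧ lb (ψ x y) = α y.1 then sd y.1 else lb (ψ x y)) := fun x y hxy => if_pos hxy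
  have hpart : ∀ u v, G.Adj u v → u ∈ U → v ∈ U → α u ≠ α v := by
    intro u v huv hu hv
    rw [hU3 u hu v hv huv.ne (Or.inl huv)]
    exact hαα u hu
  have hcases : ∀ x y, G.Adj x.1 y.1 →
      (x.1 ∈ U ∧ lb (ψ x y) = α x.1 ∧ φ x y = sd x.1) ∨
      (y.1 ∈ U ∧ lb (ψ x y) = α y.1 ∧ φ x y = sd y.1) ∨
      (¬ (x.1 ∈ U ∧ lb (ψ x y) = α x.1) ∧ ¬ (y.1 ∈ U ∧ lb (ψ x y) = α y.1) ∧
        φ x y = lb (ψ x y)) := by
    intro x y hxy
    rw [hφ x y hxy]
    by_cases c1 : x.1 ∈ U ∧ lb (ψ x y) = α x.1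
    · rw [if_pos c1]
      exact Or.inl ⟨c1.1, c1.2, rfl⟩
    · rw [if_neg c1]
      by_cases c2 : y.1 ∈ U ∧ lb (ψ x y) = α y.1
      · rw [if_pos c2]
        exact Or.inr (Or.inl ⟨c2.1, c2.2, rfl⟩)
      · rw [if_neg c2]
        exact Or.inr (Or.inr ⟨c1, c2, rfl⟩)
  have hsym : ∀ x y, φ x y = φ y x := by
    intro x y
    by_cases hxy : G.Adj x.1 y.1
    · rw [hφ x y hxy, hφ y x hxy.symm, h1 y x]
      by_cases c1 : x.1 ∈ U ∧ lb (ψ x y) = α x.1
      · by_cases c2 : y.1 ∈ U ∧ lb (ψ x y) = α y.1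
        · exact absurd (c1.2.symm.trans c2.2) (hpart _ _ hxy c1.1 c2.1)
        · rw [if_pos c1, if_neg c2, if_pos c1]
      · by_cases c2 : y.1 ∈ U ∧ lb (ψ x y) = α y.1
        · rw [if_neg c1, if_pos c2, if_pos c2]
        · rw [if_neg c1, if_neg c2, if_neg c2, if_neg c1]
    · have hyx : ¬ G.Adj y.1 x.1 := fun h5 => hxy h5.symm
      have e1 : φ x y = 0 := if_neg hxy
      have e2 : φ y x = 0 := if_neg hyx
      rw [e1, e2]
  have hex : ∀ v, ∃ i l : Fin m, v ∈ U → lb (ψ (v, i) (p v, l)) = γ v := by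
    intro v
    by_cases hv : v ∈ U
    · have hz : (o v : ℕ) < h := lt_of_lt_of_le (o v).2 hbig
      obtain ⟨i, l, h6⟩ := h4 ⟨γ v, hSU v hv⟩ ⟨(o v : ℕ), hz⟩ v (Set.mem_univ _)
      have h7 : τ (vz (o v)) v = p v := by
        rw [hvz]
        exact hτ1 v hv
      have h6' : ψ (v, i) (τ (vz (o v)) v, l) = Sum.inl ⟨γ v, hSU v hv⟩ := h6
      rw [h7] at h6'
      refine ⟨i, l, fun _ => ?_⟩
      rw [h6']
      exact hlb1 _
    · exact ⟨⟨0, by omega⟩, ⟨0, by omega⟩, fun h5 => absurd h5 hv⟩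
  choose fi fl hfl using hex
  let k : V → Fin m := fun v => if o v < o (p v) then fi v else fl (p v)
  refine ⟨g, φ, k, ?_, ?_, ?_, hsym, ?_, ?_, hg1, ?_⟩
  · intro v
    by_cases hv : v ∈ U
    · rw [hg1 v hv]
      exact hα v hv
    · rw [hg2 v hv]
      exact hsd1 v
  · intro x y
    by_cases hxy : G.Adj x.1 y.1
    · rcases hcases x y hxy with ⟨-, -, h5⟩ | ⟨-, -, h5⟩ | ⟨-, -, h5⟩ <;> rw [h5]
      · exact hsd1 _
      · exact hsd1 _
      · exact hlb4 _
    · have e1 : φ x y = 0 := if_neg hxy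
      rw [e1]
      omega
  · intro u v huv
    by_cases hu : u ∈ U
    · rw [hg1 u hu]
      by_cases hv : v ∈ U
      · rw [hg1 v hv]
        exact hpart u v huv hu hv
      · rw [hg2 v hv]
        intro h5
        refine hsd2 v ?_
        rw [← h5]
        exact hA1 u hu
    · rw [hg2 u hu]
      by_cases hv : v ∈ U
      · rw [hg1 v hv]
        intro h5
        refine hsd2 u ?_
        rw [h5]
        exact hA1 v hv
      · rw [hg2 v hv]
        exact hsd3 u v huv
  · intro x y z hxy hxz hyz h5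
    have hne' : lb (ψ x y) ≠ lb (ψ x z) := fun h6 => h2 x y z hxy hxz hyz (hlb3 h6)
    rcases hcases x y hxy with ⟨a1, a2, a3⟩ | ⟨a1, a2, a3⟩ | ⟨a1, a2, a3⟩ <;>
      rcases hcases x z hxz with ⟨b1, b2, b3⟩ | ⟨b1, b2, b3⟩ | ⟨b1, b2, b3⟩ <;>
      rw [a3, b3] at h5
    · exact hne' (a2.trans b2.symm)
    · exact hsd3 _ _ hxz h5
    · exact hlb5 _ _ h5.symm
    · exact hsd3 _ _ hxy h5.symm
    · by_cases h6 : y.1 = z.1
      · refine hne' ?_
        rw [a2, b2, h6]
      · have h7 := hU3 _ a1 _ b1 h6 (Or.inr ⟨x.1, hxy, hxz⟩)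
        have h8 := (hp _ a1).2.2
        rw [← h7] at h8
        exact hsd3 _ _ h8 h5
    · exact hlb5 _ _ h5.symm
    · exact hlb5 _ _ h5
    · exact hlb5 _ _ h5
    · exact hne' h5
  · intro x y hxy
    rcases hcases x y hxy with ⟨a1, a2, a3⟩ | ⟨a1, a2, a3⟩ | ⟨a1, a2, a3⟩ <;> rw [a3]
    · rw [hg1 _ a1]
      intro h5
      refine hsd2 x.1 ?_
      rw [h5]
      exact hA1 _ a1
    · by_cases hx : x.1 ∈ U
      · rw [hg1 _ hx]
        intro h5
        refine hsd2 y.1 ?_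
        rw [h5]
        exact hA1 _ hx
      · rw [hg2 _ hx]
        exact (hsd3 _ _ hxy).symm
    · by_cases hx : x.1 ∈ U
      · rw [hg1 _ hx]
        exact fun h5 => a1 ⟨hx, h5⟩
      · rw [hg2 _ hx]
        exact hlb5 _ _
  · intro v hv
    obtain ⟨h5, h6, h7⟩ := hp v hv
    have hkv : lb (ψ (v, k v) (p v, k (p v))) = γ v := by
      have hne : o v ≠ o (p v) := fun h8 => h7.ne (o.injective h8)
      by_cases h8 : o v < o (p v)
      · have e1 : k v = fi v := if_pos h8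
        have e2 : k (p v) = fl v := by
          have h9 : k (p v) = fl (p (p v)) := if_neg (by rw [h6]; exact not_lt.2 h8.le)
          rw [h9, h6]
        rw [e1, e2]
        exact hfl v hv
      · have h8' : o (p v) < o v := lt_of_le_of_ne (not_lt.1 h8) hne.symm
        have e1 : k v = fl (p v) := if_neg h8
        have e2 : k (p v) = fi (p v) := if_pos (by rw [h6]; exact h8')
        have h9 := hfl (p v) h5
        rw [h6, hγγ v hv] at h9
        rw [e1, e2, h1]
        exact h9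
    rcases hcases (v, k v) (p v, k (p v)) h7 with ⟨a1, a2, a3⟩ | ⟨a1, a2, a3⟩ | ⟨a1, a2, a3⟩
    · rw [hkv] at a2
      exact absurd a2 (hγα v hv)
    · rw [hkv, ← hγγ v hv] at a2
      exact absurd a2 (hγα _ h5)
    · rw [a3]
      exact hkv

end Pool.Agent.Q251.TE
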