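import Pool.Agent.Q251.TE.Thr

/-!
# Extending total colourings from distance-3 matchings in blow-ups
-/

set_option autoImplicit false

namespace Pool.Agent.Q251.TE

open Finset SimpleGraph Pool.Agent.Q251.TC

theorem exists_regular3 {r : ℕ} (Pr : (V : Type) → SimpleGraph V → Prop)
    (hPr : ∀ (V : Type) [Finite V] (G : SimpleGraph V), Pr V G →
      Pr (V × Bool) (Pool.Agent.TH525.LAD.dbl G r)) : ∀ (m : ℕ) (V : Type) [Finite V]
    (G : SimpleGraph V), Pr V G →
    (∀ v, (G.neighborSet v).ncard ≤ r) → (∀ v, r ≤ (G.neighborSet v).ncard + m) →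
    ∃ (W : Type) (_ : Finite W) (H : SimpleGraph W), Pr W H ∧
      (∀ w, (H.neighborSet w).ncard = r) ∧ ∃ e : G ↪g H, ∀ a b,
        (∃ w, H.Adj w (e a) ∧ H.Adj w (e b)) → a = b ∨ ∃ c, G.Adj c a ∧ G.Adj c b := by
  intro m
  induction m with
  | zero =>
    intro V _ G hc h1 h2
    exact ⟨V, inferInstance, G, hc, fun v => le_antisymm (h1 v) (h2 v), RelEmbedding.refl _,
      fun a b h => Or.inr h⟩
  | succ m ih =>
    intro V _ G hc h1 h2
    obtain ⟨W, hW, H, hHc, hH, e, he⟩ := ih (V × Bool) (Pool.Agent.TH525.LAD.dbl G r)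
      (hPr V G hc)
      (by
        intro x
        rw [Pool.Agent.TH525.LAD.dbl_deg]
        have := h1 x.1
        split_ifs with h <;> omega)
      (by
        intro x
        rw [Pool.Agent.TH525.LAD.dbl_deg]
        have := h2 x.1
        split_ifs with h <;> omega)
    let e0 : G ↪g Pool.Agent.TH525.LAD.dbl G r := ⟨⟨fun v => (v, false), fun a b h =>
      (Prod.mk.inj h).1⟩, by
        intro a b
        show (Pool.Agent.TH525.LAD.dbl G r).Adj (a, false) (b, false) ↔ G.Adj a b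
        simp [Pool.Agent.TH525.LAD.dbl]⟩
    refine ⟨W, hW, H, hHc, hH, RelEmbedding.trans e0 e, ?_⟩
    intro a b hab
    rcases he (a, false) (b, false) hab with h3 | ⟨⟨c, d⟩, h3, h4⟩
    · exact Or.inl (Prod.mk.inj h3).1
    · rcases h3 with ⟨h5, h6⟩ | ⟨h5, h6, -⟩
      · rcases h4 with ⟨h7, h8⟩ | ⟨h7, h8, -⟩
        · exact Or.inr ⟨c, h6, h8⟩
        · exact absurd h5 h7
      · rcases h4 with ⟨h7, h8⟩ | ⟨h7, h8, -⟩
        · exact absurd h7 h5
        · exact Or.inl (Eq.trans (Eq.symm h6) h8)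

/-- A total colouring of the vertices in `A` and the edges in `E` with `k` colours. -/
def TotalColouring {V : Type} (A : Set V) (E : Set (Sym2 V)) (k : ℕ) (g : V → ℕ)
    (f : Sym2 V → ℕ) : Prop :=
  (∀ v ∈ A, g v < k) ∧ (∀ e ∈ E, f e < k) ∧
  (∀ u ∈ A, ∀ v ∈ A, s(u, v) ∈ E → g u ≠ g v) ∧
  (∀ e ∈ E, ∀ e' ∈ E, e ≠ e' → (∃ v, v ∈ e ∧ v ∈ e') → f e ≠ f e') ∧
  (∀ v ∈ A, ∀ e ∈ E, v ∈ e → g v ≠ f e)

/-- Q1 for the blow-up. -/
def ExtProp {V : Type} (G : SimpleGraph V) (D m : ℕ) : Prop :=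
  ∀ H : (blowUp G m).Subgraph, H.IsMatching →
    (∀ u ∈ H.verts, ∀ v ∈ H.verts, u ≠ v → ¬ H.Adj u v → 3 ≤ (blowUp G m).edist u v) →
    ∀ (g0 : V × Fin m → ℕ) (f0 : Sym2 (V × Fin m) → ℕ),
      TotalColouring H.verts H.edgeSet (D * m + 2) g0 f0 →
      ∃ (g' : V × Fin m → ℕ) (f' : Sym2 (V × Fin m) → ℕ),
        TotalColouring Set.univ (blowUp G m).edgeSet (D * m + 2) g' f' ∧
        (∀ v ∈ H.verts, g' v = g0 v) ∧ ∀ e ∈ H.edgeSet, f' e = f0 e

theorem transfer {V W : Type} {G : SimpleGraph V} {Γ : SimpleGraph W} {D m : ℕ}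
    (hpos : ∀ _ : V, 0 < m) (hR : RegExt Γ D m) (e : G ↪g Γ)
    (he : ∀ a b, (∃ w, Γ.Adj w (e a) ∧ Γ.Adj w (e b)) → a = b ∨ ∃ c, G.Adj c a ∧ G.Adj c b) :
    ExtProp G D m := by
  classical
  intro H hH1 hH2 g0 f0 hcol
  obtain ⟨c1, c2, c3, c4, c5⟩ := hcol
  -- distances
  have hd : ∀ x ∈ H.verts, ∀ y ∈ H.verts, x ≠ y → ¬ H.Adj x y →
      ¬ G.Adj x.1 y.1 ∧ ¬ ∃ c, G.Adj c x.1 ∧ G.Adj c y.1 := by
    intro x hx y hy hne hno
    have h1 := hH2 x hx y hy hne hno
    refine ⟨fun h2 => ?_, ?_⟩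
    · have h3 : (blowUp G m).Adj x y := h2
      have h4 := (Walk.cons h3 Walk.nil).edist_le
      have h5 := h1.trans h4
      simp only [Walk.length_cons, Walk.length_nil] at h5
      exact absurd h5 (by decide)
    · rintro ⟨c, h2, h3⟩
      have h4 : (blowUp G m).Adj x (c, x.2) := h2.symm
      have h5 : (blowUp G m).Adj (c, x.2) y := h3
      have h6 := (Walk.cons h4 (Walk.cons h5 Walk.nil)).edist_le
      have h7 := h1.trans h6
      simp only [Walk.length_cons, Walk.length_nil] at h7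
      exact absurd h7 (by decide)
  have hadj : ∀ x y, H.Adj x y → G.Adj x.1 y.1 := fun x y hxy => H.adj_sub hxy
  have huniq : ∀ x ∈ H.verts, ∀ y ∈ H.verts, x.1 = y.1 → x = y := by
    intro x hx y hy hxy
    by_contra hne
    obtain ⟨z, hz, -⟩ := hH1 hx
    refine (hd x hx y hy hne ?_).2 ⟨z.1, (hadj _ _ hz).symm, ?_⟩
    · intro h1
      have h2 := hadj x y h1
      rw [hxy] at h2
      exact G.irrefl h2
    · rw [← hxy]
      exact (hadj _ _ hz).symm
  let U0 : Set V := {v | ∃ x ∈ H.verts, x.1 = v}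
  have hxx : ∀ v, ∃ x : V × Fin m, v ∈ U0 → x ∈ H.verts ∧ x.1 = v := by
    intro v
    by_cases hv : v ∈ U0
    · obtain ⟨x, h1, h2⟩ := hv
      exact ⟨x, fun _ => ⟨h1, h2⟩⟩
    · exact ⟨(v, ⟨0, hpos v⟩), fun h1 => absurd h1 hv⟩
  choose xx hxx using hxx
  have hyy : ∀ v, ∃ y : V × Fin m, v ∈ U0 → H.Adj (xx v) y := by
    intro v
    by_cases hv : v ∈ U0
    · obtain ⟨y, h1, -⟩ := hH1 (hxx v hv).1
      exact ⟨y, fun _ => h1⟩
    · exact ⟨(v, ⟨0, hpos v⟩), fun h1 => absurd h1 hv⟩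
  choose yy hyy using hyy
  have hmat : ∀ x y z, H.Adj x y → H.Adj x z → y = z := by
    intro x y z h1 h2
    exact (hH1 (H.edge_vert h1)).unique h1 h2
  have hx1 : ∀ x ∈ H.verts, x.1 ∈ U0 := fun x hx => ⟨x, hx, rfl⟩
  have hx2 : ∀ x ∈ H.verts, xx x.1 = x := fun x hx =>
    huniq _ (hxx x.1 (hx1 x hx)).1 _ hx (hxx x.1 (hx1 x hx)).2
  have hyv : ∀ v ∈ U0, yy v ∈ H.verts := fun v hv => H.edge_vert (hyy v hv).symm
  let p : V → V := fun v => if v ∈ U0 then (yy v).1 else v
  have hp1 : ∀ v ∈ U0, p v = (yy v).1 := fun v hv => if_pos hv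
  have hp2 : ∀ v, v ∉ U0 → p v = v := fun v hv => if_neg hv
  have hpU : ∀ v ∈ U0, p v ∈ U0 := by
    intro v hv
    rw [hp1 v hv]
    exact hx1 _ (hyv v hv)
  have hxp : ∀ v ∈ U0, xx (p v) = yy v := by
    intro v hv
    rw [hp1 v hv]
    exact hx2 _ (hyv v hv)
  have hyp : ∀ v ∈ U0, yy (p v) = xx v := by
    intro v hv
    have h1 := hyy (p v) (hpU v hv)
    rw [hxp v hv] at h1
    exact hmat _ _ _ h1 (hyy v hv).symm
  have hpp : ∀ v, p (p v) = v := by
    intro v
    by_cases hv : v ∈ U0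
    · rw [hp1 (p v) (hpU v hv), hyp v hv]
      exact (hxx v hv).2
    · rw [hp2 v hv, hp2 v hv]
  have hpa : ∀ v ∈ U0, G.Adj v (p v) := by
    intro v hv
    have h1 := hadj _ _ (hyy v hv)
    rw [(hxx v hv).2, ← hp1 v hv] at h1
    exact h1
  let π : W → W := Function.extend e (fun v => e (p v)) id
  have hπ : ∀ v, π (e v) = e (p v) := fun v => e.injective.extend_apply _ _ _
  let αW : W → ℕ := Function.extend e (fun v => g0 (xx v)) (fun _ => 0)
  let γW : W → ℕ := Function.extend e (fun v => f0 s(xx v, yy v)) (fun _ => 0)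
  have hαW : ∀ v, αW (e v) = g0 (xx v) := fun v => e.injective.extend_apply _ _ _
  have hγW : ∀ v, γW (e v) = f0 s(xx v, yy v) := fun v => e.injective.extend_apply _ _ _
  have hedge : ∀ v ∈ U0, s(xx v, yy v) ∈ H.edgeSet := fun v hv => hyy v hv
  obtain ⟨g, ψ, k, k1, k2, k3, k4, k5, k6, k7, k8⟩ := hR (e '' U0) π
    (by
      rintro _ ⟨v, hv, rfl⟩
      rw [hπ, hπ, hpp]
      exact ⟨⟨p v, hpU v hv, rfl⟩, rfl, e.map_adj_iff.2 (hpa v hv)⟩)
    (by
      rintro _ ⟨v, hv, rfl⟩ _ ⟨w, hw, rfl⟩ hne h1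
      rw [hπ]
      by_contra hno
      have hvw : v ≠ w := fun h2 => hne (by rw [h2])
      have h2 : xx v ≠ xx w := by
        intro h3
        refine hvw ?_
        rw [← (hxx v hv).2, h3, (hxx w hw).2]
      have h3 : ¬ H.Adj (xx v) (xx w) := by
        intro h4
        refine hno (congrArg e ?_)
        rw [hp1 v hv, ← hmat _ _ _ h4 (hyy v hv), (hxx w hw).2]
      have h4 := hd _ (hxx v hv).1 _ (hxx w hw).1 h2 h3
      rw [(hxx v hv).2, (hxx w hw).2] at h4
      rcases h1 with h1 | h1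
      · exact h4.1 (e.map_adj_iff.1 h1)
      · rcases he v w h1 with h5 | h5
        · exact hvw h5
        · exact h4.2 h5)
    αW γW
    (by
      rintro _ ⟨v, hv, rfl⟩
      rw [hαW]
      exact c1 _ (hxx v hv).1)
    (by
      rintro _ ⟨v, hv, rfl⟩
      rw [hγW]
      exact c2 _ (hedge v hv))
    (by
      rintro _ ⟨v, hv, rfl⟩
      rw [hπ, hαW, hαW, hxp v hv]
      exact c3 _ (hxx v hv).1 _ (hyv v hv) (hedge v hv))
    (by
      rintro _ ⟨v, hv, rfl⟩
      rw [hγW, hαW]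
      exact (c5 _ (hxx v hv).1 _ (hedge v hv) (Sym2.mem_mk_left _ _)).symm)
    (by
      rintro _ ⟨v, hv, rfl⟩
      rw [hπ, hγW, hγW, hxp v hv, hyp v hv, Sym2.eq_swap])
  -- the new colouring
  let ρ' : V → Equiv.Perm (Fin m) := fun v =>
    if v ∈ U0 then Equiv.swap (xx v).2 (k (e v)) else Equiv.refl _
  have hρ' : ∀ v ∈ U0, ρ' v (xx v).2 = k (e v) := by
    intro v hv
    simp only [ρ']
    rw [if_pos hv, Equiv.swap_apply_left]
  let ρ : V × Fin m → W × Fin m := fun x => (e x.1, ρ' x.1 x.2)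
  have hρi : Function.Injective ρ := by
    rintro ⟨v, i⟩ ⟨w, l⟩ h1
    have h2 : e v = e w ∧ ρ' v i = ρ' w l := Prod.ext_iff.1 h1
    have h3 : v = w := e.injective h2.1
    subst h3
    exact Prod.ext rfl ((ρ' v).injective h2.2)
  have hρx : ∀ v ∈ U0, ρ (xx v) = (e v, k (e v)) := by
    intro v hv
    refine Prod.ext ?_ ?_
    · show e (xx v).1 = e v
      rw [(hxx v hv).2]
    · show ρ' (xx v).1 (xx v).2 = k (e v)
      have h1 : ∀ w, w = v → ρ' w (xx v).2 = k (e v) := by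
        rintro w rfl
        exact hρ' w hv
      exact h1 _ (hxx v hv).2
  have hρadj : ∀ x y, (blowUp G m).Adj x y → Γ.Adj (ρ x).1 (ρ y).1 := fun x y hxy =>
    e.map_adj_iff.2 hxy
  let f' : Sym2 (V × Fin m) → ℕ := Sym2.lift ⟨fun x y => ψ (ρ x) (ρ y), fun x y => k4 _ _⟩
  have hf' : ∀ x y, f' s(x, y) = ψ (ρ x) (ρ y) := fun x y => rfl
  refine ⟨fun x => g (e x.1), f', ⟨fun x _ => k1 _, ?_, ?_, ?_, ?_⟩, ?_, ?_⟩
  · intro ε _
    induction ε using Sym2.ind with
    | _ x y => exact k2 _ _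
  · intro x _ y _ hxy
    exact k3 _ _ (hρadj x y hxy)
  · rintro ε hε ε' hε' hne ⟨x, ⟨y, rfl⟩, ⟨z, rfl⟩⟩
    rw [hf', hf']
    refine k5 _ _ _ (hρadj x y hε) (hρadj x z hε') (fun h1 => hne ?_)
    rw [hρi h1]
  · rintro x _ ε hε ⟨y, rfl⟩
    rw [hf']
    exact (k6 _ _ (hρadj x y hε)).symm
  · intro x hx
    show g (e x.1) = g0 x
    rw [k7 _ ⟨x.1, hx1 x hx, rfl⟩, hαW, hx2 x hx]
  · intro ε hε
    induction ε using Sym2.ind with
    | _ x y =>
      have h1 : H.Adj x y := hε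
      have hx : x ∈ H.verts := H.edge_vert h1
      have hv := hx1 x hx
      have h2 : xx x.1 = x := hx2 x hx
      have h3 : y = yy x.1 := by
        have h4 := hyy x.1 hv
        rw [h2] at h4
        exact hmat _ _ _ h1 h4
      have h5 := k8 _ ⟨x.1, hv, rfl⟩
      rw [hπ, hγW, h2, ← h3] at h5
      rw [hf', ← h5]
      congr 1
      · rw [← hρx x.1 hv, h2]
      · rw [← hρx (p x.1) (hpU _ hv), hxp x.1 hv, ← h3]

theorem ext_zero {V : Type} {G : SimpleGraph V} (hG : ∀ u v, ¬ G.Adj u v) (m : ℕ) :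
    ExtProp G 0 m := by
  intro H hH _ g0 f0 _
  have h1 : ∀ x ∈ H.verts, False := by
    intro x hx
    obtain ⟨y, hy, -⟩ := hH hx
    exact hG _ _ (H.adj_sub hy)
  have h2 : ∀ x y, ¬ (blowUp G m).Adj x y := fun x y => hG _ _
  refine ⟨fun _ => 0, fun _ => 0, ⟨fun _ _ => Nat.succ_pos _, fun _ _ => Nat.succ_pos _, ?_, ?_, ?_⟩, ?_, ?_⟩
  · intro u _ v _ huv
    exact absurd huv (h2 u v)
  · intro ε hε
    induction ε using Sym2.ind with
    | _ x y => exact absurd hε (h2 x y)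
  · intro x _ ε hε
    induction ε using Sym2.ind with
    | _ x y => exact absurd hε (h2 x y)
  · intro x hx
    exact (h1 x hx).elim
  · intro ε hε
    induction ε using Sym2.ind with
    | _ x y => exact absurd (H.adj_sub hε) (h2 x y)

theorem induce_nonbip {V : Type} {G : SimpleGraph V} (v : V) (hv : ¬ Bip G v) :
    ¬ Bip (G.induce {v | ¬ Bip G v}) ⟨v, hv⟩ := by
  classical
  rintro ⟨φ, hφ⟩
  refine hv ⟨fun x => if hx : ¬ Bip G x then φ ⟨x, hx⟩ else true, ?_⟩
  have key : ∀ x, G.Reachable v x → ∃ hx : ¬ Bip G x,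
      (G.induce {v | ¬ Bip G v}).Reachable ⟨v, hv⟩ ⟨x, hx⟩ := by
    intro x hx
    refine closed_reach (A := {x | ∃ hx : ¬ Bip G x,
      (G.induce {v | ¬ Bip G v}).Reachable ⟨v, hv⟩ ⟨x, hx⟩}) ?_ hx ⟨hv, Reachable.refl _⟩
    rintro y ⟨hy, h1⟩ z hyz
    have hz : ¬ Bip G z := fun h2 => hy (bip_reach hyz.symm.reachable h2)
    refine ⟨hz, h1.trans ?_⟩
    have h2 : (G.induce {v | ¬ Bip G v}).Adj ⟨y, hy⟩ ⟨z, hz⟩ := hyz
    exact h2.reachable
  intro x y hx hxy
  obtain ⟨h1, h2⟩ := key x hx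
  obtain ⟨h3, -⟩ := key y (hx.trans hxy.reachable)
  show (if hx : ¬ Bip G x then φ ⟨x, hx⟩ else true) ≠
    (if hx : ¬ Bip G y then φ ⟨y, hx⟩ else true)
  rw [dif_pos h1, dif_pos h3]
  exact hφ _ _ h2 hxy

theorem induce_bip {V : Type} {G : SimpleGraph V} : (G.induce {v | Bip G v}).Colorable 2 := by
  classical
  let rep : V → V := fun u => Quot.out (G.connectedComponentMk u)
  have hrep : ∀ u, G.Reachable (rep u) u := fun u =>
    ConnectedComponent.exact (Quot.out_eq (G.connectedComponentMk u))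
  have hrep2 : ∀ u w, G.Adj u w → rep u = rep w := by
    intro u w h1
    show Quot.out (G.connectedComponentMk u) = Quot.out (G.connectedComponentMk w)
    rw [ConnectedComponent.sound h1.reachable]
  let φ : V → Bool := fun u => if hb : Bip G (rep u) then Classical.choose hb u else true
  have hφ : ∀ u w, G.Adj u w → Bip G u → φ u ≠ φ w := by
    intro u w h1 h2
    have h3 : Bip G (rep u) := bip_reach (hrep u).symm h2
    have h4 : φ u = Classical.choose h3 u := dif_pos h3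
    have h5 : φ w = Classical.choose h3 w := by
      have h6 : ∀ (x : V) (hx : x = rep w) (hb : Bip G x), φ w = Classical.choose hb w := by
        rintro x rfl hb
        exact dif_pos hb
      exact h6 (rep u) (hrep2 u w h1) h3
    rw [h4, h5]
    exact Classical.choose_spec h3 u w (hrep u) h1
  refine ⟨Coloring.mk (fun x => if φ x.1 = true then (1 : Fin 2) else 0) ?_⟩
  rintro ⟨x, hx⟩ ⟨y, hy⟩ hxy h1
  have h3 := hφ x y hxy hx
  cases hx' : φ x <;> cases hy' : φ y <;> simp [hx', hy'] at h1 h3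

/-- **Q1 for all large even blow-ups.** -/
theorem main {V : Type} [Finite V] (G : SimpleGraph V) (D : ℕ)
    (hdeg : ∀ v, (G.neighborSet v).ncard ≤ D) :
    ∃ m₀ : ℕ, ∀ m, m₀ ≤ m → Even m → ExtProp G D m := by
  classical
  have hno : D = 0 ∨ D = 1 ∨ D = 2 ∨ 3 ≤ D := by omega
  rcases hno with rfl | rfl | rfl | hD
  · refine ⟨0, fun m _ _ => ext_zero (fun u v huv => ?_) m⟩
    have h1 := hdeg u
    rw [Nat.le_zero, Set.ncard_eq_zero (Set.toFinite _)] at h1
    have h2 : v ∈ G.neighborSet u := huv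
    rw [h1] at h2
    exact absurd h2 (Set.notMem_empty _)
  · obtain ⟨W, hW, Γ, -, hΓ, e, he⟩ := exists_regular3 (r := 1) (fun _ _ => True)
      (fun _ _ _ _ => trivial) 1 V G trivial hdeg (fun v => by omega)
    refine ⟨4 * Nat.card W, fun m hm hev => ?_⟩
    obtain ⟨h, hh⟩ := hev
    refine transfer (fun v => ?_) (regExt_one (h := h) hΓ (by omega) (by omega)) e he
    have : Nonempty W := ⟨e v⟩
    have h1 : 0 < Nat.card W := Nat.card_pos
    omega
  · obtain ⟨W, hW, Γ, -, hΓ, e, he⟩ := exists_regular3 (r := 2) (fun _ _ => True)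
      (fun _ _ _ _ => trivial) 2 V G trivial hdeg (fun v => by omega)
    refine ⟨4 * Nat.card W, fun m hm hev => ?_⟩
    obtain ⟨h, hh⟩ := hev
    refine transfer (fun v => ?_) (regExt_two (h := h) hΓ (by omega) (by omega)) e he
    have : Nonempty W := ⟨e v⟩
    have h1 : 0 < Nat.card W := Nat.card_pos
    omega
  · have hd : ∀ (s : Set V) (v : s), ((G.induce s).neighborSet v).ncard ≤ D := by
      intro s v
      refine le_trans ?_ (hdeg v.1)
      refine Set.ncard_le_ncard_of_injOn (fun w => w.1) (fun w hw => hw) ?_ (Set.toFinite _)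
      intro a _ b _ hab
      exact Subtype.ext hab
    obtain ⟨W1, hW1, Γ1, hn1, hr1, e1, he1⟩ := exists_regular3 (r := D)
      (fun V G => ∀ v, ¬ Bip G v) (by
        rintro V _ G hc ⟨v, a⟩ ⟨φ, hφ⟩
        let q : G →g Pool.Agent.TH525.LAD.dbl G D := ⟨fun x => (x, a), fun h => Or.inl ⟨rfl, h⟩⟩
        exact hc v ⟨fun x => φ (x, a), fun x y hx hxy => hφ (x, a) (y, a) (hx.map q)
          (Or.inl ⟨rfl, hxy⟩)⟩) D _ (G.induce {v | ¬ Bip G v})
      (fun v => induce_nonbip v.1 v.2) (hd _) (fun v => by omega)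
    obtain ⟨W2, hW2, Γ2, hn2, hr2, e2, he2⟩ := exists_regular3 (r := D)
      (fun V G => G.Colorable 2) (fun V _ G h => dbl_col (le_refl 2) h) D _
      (G.induce {v | Bip G v}) induce_bip (hd _) (fun v => by omega)
    obtain ⟨c⟩ := hn2
    refine ⟨12 * (Nat.card W1 + Nat.card W2), fun m hm hev => ?_⟩
    obtain ⟨h, hh⟩ := hev
    have R1 : RegExt Γ1 D m := regExt_nonbip (h := h) hD hr1 hn1 (by omega) (by omega)
    have R2 : RegExt Γ2 D m := regExt_bip (h := h) (by omega) hr2 (fun v => decide (c v = 0))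
      (fun u v huv h1 => by
        have h2 := c.valid huv
        have h3 : (c u = 0 ↔ c v = 0) := by simpa using h1
        have h4 := (c u).2
        have h5 := (c v).2
        rw [Fin.ext_iff, Fin.ext_iff] at h3
        refine h2 (Fin.ext ?_)
        have h6 : ((0 : Fin 2) : ℕ) = 0 := rfl
        omega) (by omega) (by omega)
    let f : V → W1 ⊕ W2 := fun v => if hv : Bip G v then Sum.inr (e2 ⟨v, hv⟩) else
      Sum.inl (e1 ⟨v, hv⟩)
    have f1 : ∀ v (hv : ¬ Bip G v), f v = Sum.inl (e1 ⟨v, hv⟩) := fun v hv => dif_neg hv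
    have f2 : ∀ v (hv : Bip G v), f v = Sum.inr (e2 ⟨v, hv⟩) := fun v hv => dif_pos hv
    have hadjb : ∀ u w, G.Adj u w → (Bip G u ↔ Bip G w) := fun u w h1 =>
      ⟨bip_reach h1.reachable, bip_reach h1.reachable.symm⟩
    have finj : Function.Injective f := by
      intro u v huv
      by_cases hu : Bip G u <;> by_cases hv : Bip G v
      · rw [f2 u hu, f2 v hv] at huv
        exact congrArg Subtype.val (e2.injective (Sum.inr.inj huv))
      · rw [f2 u hu, f1 v hv] at huv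
        exact absurd huv (by simp)
      · rw [f1 u hu, f2 v hv] at huv
        exact absurd huv (by simp)
      · rw [f1 u hu, f1 v hv] at huv
        exact congrArg Subtype.val (e1.injective (Sum.inl.inj huv))
    have fadj : ∀ u v, (Γ1 ⊕g Γ2).Adj (f u) (f v) ↔ G.Adj u v := by
      intro u v
      by_cases hu : Bip G u <;> by_cases hv : Bip G v
      · rw [f2 u hu, f2 v hv]
        show Γ2.Adj _ _ ↔ _
        rw [e2.map_adj_iff]
        exact Iff.rfl
      · rw [f2 u hu, f1 v hv]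
        constructor
        · intro h1
          exact absurd h1 (by simp)
        · intro h1
          exact absurd ((hadjb u v h1).1 hu) hv
      · rw [f1 u hu, f2 v hv]
        constructor
        · intro h1
          exact absurd h1 (by simp)
        · intro h1
          exact absurd ((hadjb u v h1).2 hv) hu
      · rw [f1 u hu, f1 v hv]
        show Γ1.Adj _ _ ↔ _
        rw [e1.map_adj_iff]
        exact Iff.rfl
    refine transfer (fun v => ?_) (regExt_sum R1 R2) ⟨⟨f, finj⟩, fadj _ _⟩ ?_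
    · by_cases hv : Bip G v
      · have : Nonempty W2 := ⟨e2 ⟨v, hv⟩⟩
        have h1 : 0 < Nat.card W2 := Nat.card_pos
        omega
      · have : Nonempty W1 := ⟨e1 ⟨v, hv⟩⟩
        have h1 : 0 < Nat.card W1 := Nat.card_pos
        omega
    · rintro a b ⟨w, h1, h2⟩
      have h1' : (Γ1 ⊕g Γ2).Adj w (f a) := h1
      have h2' : (Γ1 ⊕g Γ2).Adj w (f b) := h2
      rcases w with w | w
      · by_cases ha : Bip G a
        · rw [f2 a ha] at h1'
          exact absurd h1' (by simp)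
        · by_cases hb : Bip G b
          · rw [f2 b hb] at h2'
            exact absurd h2' (by simp)
          · rw [f1 a ha] at h1'
            rw [f1 b hb] at h2'
            rcases he1 ⟨a, ha⟩ ⟨b, hb⟩ ⟨w, h1', h2'⟩ with h3 | ⟨c, h3, h4⟩
            · exact Or.inl (congrArg Subtype.val h3)
            · exact Or.inr ⟨c.1, h3, h4⟩
      · by_cases ha : Bip G a
        · by_cases hb : Bip G b
          · rw [f2 a ha] at h1'
            rw [f2 b hb] at h2'
            rcases he2 ⟨a, ha⟩ ⟨b, hb⟩ ⟨w, h1', h2'⟩ with h3 | ⟨c, h3, h4⟩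
            · exact Or.inl (congrArg Subtype.val h3)
            · exact Or.inr ⟨c.1, h3, h4⟩
          · rw [f1 b hb] at h2'
            exact absurd h2' (by simp)
        · rw [f1 a ha] at h1'
          exact absurd h1' (by simp)

end Pool.Agent.Q251.TE
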