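import Pool.Agent.Q251.TE.Out2

/-!
# Total colourings of blow-ups of regular graphs with a precoloured matching
-/

set_option autoImplicit false

namespace Pool.Agent.Q251.TE

open Finset SimpleGraph Pool.Agent.Q251.TC

/-- Pointwise distinct permutations along edges. -/
theorem perms {V : Type} [Finite V] {G : SimpleGraph V} {r : ℕ}
    (hreg : ∀ v, (G.neighborSet v).ncard = r) : ∀ k ≤ r, ∃ s : Fin k → Equiv.Perm V,
      (∀ i u, G.Adj u (s i u)) ∧ ∀ i j u, s i u = s j u → i = j := by
  classical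
  have := Fintype.ofFinite V
  have hdeg : ∀ v, (univ.filter (fun u => G.Adj v u)).card = r := by
    intro v
    rw [← hreg v]
    have h5 : G.neighborSet v = ((univ.filter (fun u => G.Adj v u) : Finset V) : Set V) := by
      ext u
      simp
    rw [h5, Set.ncard_coe_finset]
  intro k
  induction k with
  | zero => exact fun _ => ⟨fun i => i.elim0, fun i => i.elim0, fun i => i.elim0⟩
  | succ k ih =>
    intro hk
    obtain ⟨s, h1, h2⟩ := ih (by omega)
    have hrow : ∀ u, ∑ w, (if G.Adj u w ∧ ∀ i, s i u ≠ w then 1 else 0) = r - k := by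
      intro u
      rw [← card_filter]
      have e : (univ.filter (fun w => G.Adj u w ∧ ∀ i, s i u ≠ w)) =
          (univ.filter (fun w => G.Adj u w)) \ (univ.image (fun i => s i u)) := by
        ext w
        simp
      have hi : (univ.image (fun i => s i u)).card = k := by
        rw [card_image_of_injective _ (fun i j h => h2 i j u h), card_univ, Fintype.card_fin]
      rw [e, card_sdiff_of_subset, hdeg, hi]
      intro w hw
      obtain ⟨i, -, rfl⟩ := mem_image.1 hw
      exact mem_filter.2 ⟨mem_univ _, h1 i u⟩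
    have hcol : ∀ w, ∑ u, (if G.Adj u w ∧ ∀ i, s i u ≠ w then 1 else 0) = r - k := by
      intro w
      rw [← card_filter]
      have e : (univ.filter (fun u => G.Adj u w ∧ ∀ i, s i u ≠ w)) =
          (univ.filter (fun u => G.Adj w u)) \ (univ.image (fun i => (s i).symm w)) := by
        ext u
        simp only [mem_filter, mem_univ, true_and, mem_sdiff, mem_image, not_exists]
        constructor
        · rintro ⟨h3, h4⟩
          refine ⟨h3.symm, fun i h5 => h4 i ?_⟩
          rw [← h5, Equiv.apply_symm_apply]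
        · rintro ⟨h3, h4⟩
          refine ⟨h3.symm, fun i h5 => h4 i ?_⟩
          rw [← h5, Equiv.symm_apply_apply]
      have hi : (univ.image (fun i => (s i).symm w)).card = k := by
        rw [card_image_of_injective, card_univ, Fintype.card_fin]
        intro i j h3
        have h3' : (s i).symm w = (s j).symm w := h3
        refine h2 i j ((s i).symm w) ?_
        rw [Equiv.apply_symm_apply, h3', Equiv.apply_symm_apply]
      rw [e, card_sdiff_of_subset, hdeg, hi]
      intro u hu
      obtain ⟨i, -, rfl⟩ := mem_image.1 hu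
      refine mem_filter.2 ⟨mem_univ _, ?_⟩
      have h3 := h1 i ((s i).symm w)
      rw [Equiv.apply_symm_apply] at h3
      exact h3.symm
    obtain ⟨τ, hτ⟩ := Pool.Agent.H150R2.ZSF.exists_perm
      (fun u w => if G.Adj u w ∧ ∀ i, s i u ≠ w then 1 else 0) (r - k) (by omega) hrow hcol
    have hτ' : ∀ u, G.Adj u (τ u) ∧ ∀ i, s i u ≠ τ u := by
      intro u
      by_contra h
      exact hτ u (if_neg h)
    refine ⟨Fin.cons τ s, ?_, ?_⟩
    · intro i u
      refine Fin.cases ?_ (fun i => ?_) i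
      · exact (hτ' u).1
      · exact h1 i u
    · intro i j u
      refine Fin.cases ?_ (fun i => ?_) i
      · refine Fin.cases (fun _ => rfl) (fun j h3 => ?_) j
        rw [Fin.cons_zero, Fin.cons_succ] at h3
        exact absurd h3.symm ((hτ' u).2 j)
      · refine Fin.cases (fun h3 => ?_) (fun j h3 => ?_) j
        · rw [Fin.cons_zero, Fin.cons_succ] at h3
          exact absurd h3 ((hτ' u).2 i)
        · rw [Fin.cons_succ, Fin.cons_succ] at h3
          rw [h2 i j u h3]

/-- The losses at a vertex. -/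
theorem loss {V Q : Type} [Finite Q] {h : ℕ} (lbl : Q → ℕ) (hlbl : Function.Injective lbl)
    (A : Finset ℕ) (hA : A.card ≤ h / 3) (c0 : ℕ) (f : ℕ → V) (U : Set V) (g : V → ℕ)
    (hf : ∃ k, k < 3 ∧ f k ∉ U) (bad : Set (Q × Fin h))
    (hbad : ∀ x ∈ bad, lbl x.1 = c0 ∨ (lbl x.1 ∈ A ∧ (x.2 : ℕ) = 0) ∨
      (lbl x.1 = g (f ((x.2 : ℕ) % 3)) ∧ f ((x.2 : ℕ) % 3) ∈ U)) : bad.ncard ≤ 2 * h := by
  classical
  obtain ⟨k, hk, hfk⟩ := hf
  let B1 : Set (Q × Fin h) := {x | lbl x.1 = c0}
  let B2 : Set (Q × Fin h) := {x | lbl x.1 ∈ A ∧ (x.2 : ℕ) = 0}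
  let B3 : Set (Q × Fin h) := {x | lbl x.1 = g (f ((x.2 : ℕ) % 3)) ∧ f ((x.2 : ℕ) % 3) ∈ U}
  let Z : Set (Fin h) := {z | f ((z : ℕ) % 3) ∈ U}
  have h1 : B1.ncard ≤ h := by
    have h2 : B1.ncard ≤ (Set.univ : Set (Fin h)).ncard := by
      refine Set.ncard_le_ncard_of_injOn (fun x => x.2) (fun _ _ => Set.mem_univ _) ?_
        (Set.toFinite _)
      intro x hx y hy hxy
      have hx' : lbl x.1 = c0 := hx
      have hy' : lbl y.1 = c0 := hy
      exact Prod.ext (hlbl (hx'.trans hy'.symm)) hxy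
    rwa [Set.ncard_univ, Nat.card_eq_fintype_card, Fintype.card_fin] at h2
  have h2 : B2.ncard ≤ A.card := by
    rw [← Set.ncard_coe_finset]
    refine Set.ncard_le_ncard_of_injOn (fun x => lbl x.1) (fun x hx => mem_coe.2 hx.1) ?_
      (Set.toFinite _)
    intro x hx y hy hxy
    exact Prod.ext (hlbl hxy) (Fin.ext (hx.2.trans hy.2.symm))
  have h3 : B3.ncard ≤ Z.ncard := by
    refine Set.ncard_le_ncard_of_injOn (fun x => x.2) (fun x hx => hx.2) ?_ (Set.toFinite _)
    intro x hx y hy hxy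
    have hxy' : x.2 = y.2 := hxy
    refine Prod.ext (hlbl ?_) hxy
    rw [hx.1, hy.1, hxy']
  have h4 : h / 3 ≤ Zᶜ.ncard := by
    have h5 : (Set.univ : Set (Fin (h / 3))).ncard ≤ Zᶜ.ncard := by
      refine Set.ncard_le_ncard_of_injOn
        (fun i => (⟨3 * (i : ℕ) + k, by have := i.2; omega⟩ : Fin h)) ?_ ?_ (Set.toFinite _)
      · intro i _ hi
        have h6 : f ((3 * (i : ℕ) + k) % 3) ∈ U := hi
        rw [Nat.mul_add_mod, Nat.mod_eq_of_lt hk] at h6
        exact hfk h6
      · intro i _ i' _ h6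
        have h7 : 3 * (i : ℕ) + k = 3 * (i' : ℕ) + k := congrArg Fin.val h6
        exact Fin.ext (by omega)
    rwa [Set.ncard_univ, Nat.card_eq_fintype_card, Fintype.card_fin] at h5
  have h5 := Set.ncard_add_ncard_compl Z
  rw [Nat.card_eq_fintype_card, Fintype.card_fin] at h5
  have h6 : bad ⊆ B1 ∪ (B2 ∪ B3) := by
    intro x hx
    rcases hbad x hx with h7 | h7 | h7
    · exact Or.inl h7
    · exact Or.inr (Or.inl h7)
    · exact Or.inr (Or.inr h7)
  have h7 := Set.ncard_le_ncard h6 (Set.toFinite _)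
  have h8 := Set.ncard_union_le B1 (B2 ∪ B3)
  have h9 := Set.ncard_union_le B2 B3
  omega

/-- Among three neighbours of a vertex one is not in the matching. -/
theorem three {V : Type} {G : SimpleGraph V} {U : Set V} {π : Equiv.Perm V}
    (hU3 : ∀ v ∈ U, ∀ w ∈ U, v ≠ w → (G.Adj v w ∨ ∃ x, G.Adj x v ∧ G.Adj x w) → w = π v)
    (u : V) (f : ℕ → V) (hf : ∀ k, G.Adj u (f k))
    (hinj : ∀ k l, k < 3 → l < 3 → f k = f l → k = l) : ∃ k, k < 3 ∧ f k ∉ U := by
  by_contra hno
  push Not at hno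
  have h0 := hno 0 (by omega)
  have h1 := hno 1 (by omega)
  have h2 := hno 2 (by omega)
  have n1 : f 0 ≠ f 1 := fun h => by
    have := hinj 0 1 (by omega) (by omega) h
    omega
  have n2 : f 0 ≠ f 2 := fun h => by
    have := hinj 0 2 (by omega) (by omega) h
    omega
  have e1 := hU3 _ h0 _ h1 n1 (Or.inr ⟨u, hf 0, hf 1⟩)
  have e2 := hU3 _ h0 _ h2 n2 (Or.inr ⟨u, hf 0, hf 2⟩)
  have := hinj 1 2 (by omega) (by omega) (e1.trans e2.symm)
  omega

end Pool.Agent.Q251.TE
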