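import Pool.Agent.Q251.TC.HY

/-!
# Edge colourings of blow-ups from outlines, with control of the special colours
-/

set_option autoImplicit false

namespace Pool.Agent.Q251.TE

open Finset SimpleGraph Pool.Agent.Q251.TC

section

variable {V L D : Type} [Fintype V] [Fintype L] [Fintype D] {G : SimpleGraph V} {m : ℕ}
  {ι : D → D} {b : D → V} {col : D → L}

open Classical in
/-- **Detachment.** -/
theorem det2 [Nonempty L] (hι : ∀ d, ι (ι d) = d) (hG : ∀ d, G.Adj (b d) (b (ι d)))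
    (hc : ∀ d, col (ι d) = col d)
    (hcnt : ∀ u v, G.Adj u v → (univ.filter (fun d => b d = u ∧ b (ι d) = v)).card = m * m)
    (hdeg : ∀ u c, (univ.filter (fun d => b d = u ∧ col d = c)).card ≤ m) :
    ∃ ψ : V × Fin m → V × Fin m → L, (∀ x y, ψ x y = ψ y x) ∧
      (∀ x y z, G.Adj x.1 y.1 → G.Adj x.1 z.1 → y ≠ z → ψ x y ≠ ψ x z) ∧
      (∀ x y, G.Adj x.1 y.1 → ∃ d, b d = x.1 ∧ b (ι d) = y.1 ∧ col d = ψ x y) ∧
      ∀ d, ∃ x y : V × Fin m, x.1 = b d ∧ y.1 = b (ι d) ∧ ψ x y = col d := by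
  rcases Nat.eq_zero_or_pos m with hm | hm
  · subst hm
    refine ⟨fun x _ => x.2.elim0, fun x _ => x.2.elim0, fun x _ _ => x.2.elim0,
      fun x _ => x.2.elim0, fun d => ?_⟩
    have h1 := hcnt _ _ (hG d)
    rw [Nat.mul_zero, card_eq_zero] at h1
    have h2 : d ∈ (∅ : Finset D) := h1 ▸ mem_filter.2 ⟨mem_univ _, rfl, rfl⟩
    exact absurd h2 (notMem_empty _)
  have hall : ∀ P : Finset V, ∃ κ : D → Fin m, Sp G m ι b col P κ := by
    intro P
    induction P using Finset.induction_on with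
    | empty =>
      exact ⟨fun _ => ⟨0, hm⟩, ⟨fun d _ hd => absurd hd (notMem_empty _),
        fun u _ hu => absurd hu (notMem_empty _), fun u _ hu => absurd hu (notMem_empty _)⟩⟩
    | insert u P hu ih =>
      obtain ⟨κ, h⟩ := ih
      exact split hι hG hcnt hdeg P κ h u hu hm
  obtain ⟨κ, h⟩ := hall univ
  have hex : ∀ x y : V × Fin m, G.Adj x.1 y.1 → ∃ d, (b d = x.1 ∧ b (ι d) = y.1 ∧ κ d = x.2 ∧
      κ (ι d) = y.2) ∧ ∀ d', (b d' = x.1 ∧ b (ι d') = y.1 ∧ κ d' = x.2 ∧ κ (ι d') = y.2) →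
      d' = d := by
    intro x y hxy
    obtain ⟨d, hd⟩ := card_eq_one.1 (h.both x.1 y.1 (mem_univ _) (mem_univ _) hxy x.2 y.2)
    have h1 : d ∈ univ.filter (fun d => b d = x.1 ∧ b (ι d) = y.1 ∧ κ d = x.2 ∧
        κ (ι d) = y.2) := by
      rw [hd]
      exact mem_singleton_self d
    refine ⟨d, (mem_filter.1 h1).2, fun d' h2 => ?_⟩
    have h3 : d' ∈ univ.filter (fun d => b d = x.1 ∧ b (ι d) = y.1 ∧ κ d = x.2 ∧
        κ (ι d) = y.2) := mem_filter.2 ⟨mem_univ _, h2⟩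
    rw [hd] at h3
    exact mem_singleton.1 h3
  let dt : ∀ x y : V × Fin m, G.Adj x.1 y.1 → D := fun x y hxy => Classical.choose (hex x y hxy)
  have hdt : ∀ x y (hxy : G.Adj x.1 y.1), b (dt x y hxy) = x.1 ∧ b (ι (dt x y hxy)) = y.1 ∧
      κ (dt x y hxy) = x.2 ∧ κ (ι (dt x y hxy)) = y.2 := fun x y hxy =>
    (Classical.choose_spec (hex x y hxy)).1
  have hdt2 : ∀ x y (hxy : G.Adj x.1 y.1) d', (b d' = x.1 ∧ b (ι d') = y.1 ∧ κ d' = x.2 ∧
      κ (ι d') = y.2) → d' = dt x y hxy := fun x y hxy =>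
    (Classical.choose_spec (hex x y hxy)).2
  let ψ : V × Fin m → V × Fin m → L := fun x y =>
    if hxy : G.Adj x.1 y.1 then col (dt x y hxy) else Classical.arbitrary L
  have hψ : ∀ x y (hxy : G.Adj x.1 y.1), ψ x y = col (dt x y hxy) := fun x y hxy => dif_pos hxy
  refine ⟨ψ, ?_, ?_, ?_, ?_⟩
  · intro x y
    by_cases hxy : G.Adj x.1 y.1
    · obtain ⟨h1, h2, h3, h4⟩ := hdt x y hxy
      rw [hψ x y hxy, hψ y x hxy.symm, ← hdt2 y x hxy.symm (ι (dt x y hxy))
        ⟨h2, by rw [hι]; exact h1, h4, by rw [hι]; exact h3⟩, hc]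
    · have h1 : ¬ G.Adj y.1 x.1 := fun h2 => hxy h2.symm
      show (if hxy : G.Adj x.1 y.1 then col (dt x y hxy) else Classical.arbitrary L) =
        if hxy : G.Adj y.1 x.1 then col (dt y x hxy) else Classical.arbitrary L
      rw [dif_neg hxy, dif_neg h1]
  · intro x y w hxy hxw hne h1
    obtain ⟨h2, h3, h4, h5⟩ := hdt x y hxy
    obtain ⟨h6, h7, h8, h9⟩ := hdt x w hxw
    rw [hψ x y hxy, hψ x w hxw] at h1
    have h10 := h.inj (dt x w hxw) (dt x y hxy) (mem_univ _) (h2.trans h6.symm)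
      (h4.trans h8.symm) h1
    rw [h10] at h3 h5
    exact hne (Prod.ext (h3.symm.trans h7) (h5.symm.trans h9))
  · intro x y hxy
    obtain ⟨h1, h2, -, -⟩ := hdt x y hxy
    exact ⟨dt x y hxy, h1, h2, (hψ x y hxy).symm⟩
  · intro d
    refine ⟨(b d, κ d), (b (ι d), κ (ι d)), rfl, rfl, ?_⟩
    have h1 : G.Adj ((b d, κ d) : V × Fin m).1 ((b (ι d), κ (ι d)) : V × Fin m).1 := hG d
    rw [hψ _ _ h1, ← hdt2 _ _ h1 d ⟨rfl, rfl, rfl, rfl⟩]

end

section

variable {V L : Type} [Fintype V] [Fintype L] {G : SimpleGraph V} {m h : ℕ}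

open Classical in
/-- **From an outline to a proper edge colouring of the blow-up.** -/
theorem outline2 [Nonempty L] (hm : m = 2 * h) (col : Arc G m h → L)
    (hout : ∀ v c, (univ.filter (fun a : Arc G m h => a.1.1.1 = v ∧ col a = c)).card ≤ h)
    (hin : ∀ v c, (univ.filter (fun a : Arc G m h => a.1.1.2 = v ∧ col a = c)).card ≤ h) :
    ∃ ψ : V × Fin m → V × Fin m → L, (∀ x y, ψ x y = ψ y x) ∧
      (∀ x y z, G.Adj x.1 y.1 → G.Adj x.1 z.1 → y ≠ z → ψ x y ≠ ψ x z) ∧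
      (∀ x y, G.Adj x.1 y.1 → ∃ a : Arc G m h, ((a.1.1.1 = x.1 ∧ a.1.1.2 = y.1) ∨
        (a.1.1.1 = y.1 ∧ a.1.1.2 = x.1)) ∧ col a = ψ x y) ∧
      ∀ a : Arc G m h, ∃ x y : V × Fin m, x.1 = a.1.1.1 ∧ y.1 = a.1.1.2 ∧ ψ x y = col a := by
  let D : Type := Arc G m h × Bool
  let ι : D → D := fun d => (d.1, !d.2)
  let b : D → V := fun d => if d.2 = true then d.1.1.1.1 else d.1.1.1.2
  let cl : D → L := fun d => col d.1
  have hι : ∀ d, ι (ι d) = d := by
    rintro ⟨a, e⟩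
    show (a, !!e) = (a, e)
    rw [Bool.not_not]
  have hG : ∀ d, G.Adj (b d) (b (ι d)) := by
    rintro ⟨a, e⟩
    cases e
    · exact a.1.2.symm
    · exact a.1.2
  have hcnt : ∀ u v, G.Adj u v →
      (univ.filter (fun d => b d = u ∧ b (ι d) = v)).card = m * m := by
    intro u v huv
    have h1 : (univ : Finset (Bool × (Fin m × Fin h))).card = m * m := by
      rw [card_univ, Fintype.card_prod, Fintype.card_bool, Fintype.card_prod, Fintype.card_fin,
        Fintype.card_fin]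
      nth_rewrite 3 [hm]
      ring
    rw [← h1]
    refine card_bij (fun d _ => (d.2, d.1.2)) (fun _ _ => mem_univ _) ?_ ?_
    · rintro ⟨a, e⟩ hd ⟨a', e'⟩ hd' h2
      obtain ⟨-, h3, h4⟩ := mem_filter.1 hd
      obtain ⟨-, h5, h6⟩ := mem_filter.1 hd'
      have h7 : e = e' ∧ a.2 = a'.2 := Prod.ext_iff.1 h2
      obtain ⟨rfl, h8⟩ := h7
      have h9 : a.1 = a'.1 := by
        cases e
        · exact Subtype.ext (Prod.ext (h4.trans h6.symm) (h3.trans h5.symm))
        · exact Subtype.ext (Prod.ext (h3.trans h5.symm) (h4.trans h6.symm))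
      exact Prod.ext (Prod.ext h9 h8) rfl
    · rintro ⟨e, xy⟩ _
      cases e
      · exact ⟨((⟨(v, u), huv.symm⟩, xy), false), mem_filter.2 ⟨mem_univ _, rfl, rfl⟩, rfl⟩
      · exact ⟨((⟨(u, v), huv⟩, xy), true), mem_filter.2 ⟨mem_univ _, rfl, rfl⟩, rfl⟩
  have hdeg : ∀ u c, (univ.filter (fun d => b d = u ∧ cl d = c)).card ≤ m := by
    intro u c
    have h1 : univ.filter (fun d => b d = u ∧ cl d = c) ⊆
        (univ.filter (fun a : Arc G m h => a.1.1.1 = u ∧ col a = c)).image (fun a => (a, true)) ∪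
        (univ.filter (fun a : Arc G m h => a.1.1.2 = u ∧ col a = c)).image
          (fun a => (a, false)) := by
      rintro ⟨a, e⟩ hd
      obtain ⟨-, h2, h3⟩ := mem_filter.1 hd
      cases e
      · exact mem_union_right _ (mem_image.2 ⟨a, mem_filter.2 ⟨mem_univ _, h2, h3⟩, rfl⟩)
      · exact mem_union_left _ (mem_image.2 ⟨a, mem_filter.2 ⟨mem_univ _, h2, h3⟩, rfl⟩)
    refine (card_le_card h1).trans ((card_union_le _ _).trans ?_)
    refine (add_le_add (card_image_le.trans (hout u c)) (card_image_le.trans (hin u c))).trans ?_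
    omega
  obtain ⟨ψ, h1, h2, h3, h3'⟩ := det2 (m := m) hι hG (fun _ => rfl) hcnt hdeg
  refine ⟨ψ, h1, h2, ?_, fun a => h3' (a, true)⟩
  intro x y hxy
  obtain ⟨⟨a, e⟩, h4, h5, h6⟩ := h3 x y hxy
  cases e
  · exact ⟨a, Or.inr ⟨h5, h4⟩, h6⟩
  · exact ⟨a, Or.inl ⟨h4, h5⟩, h6⟩

open Classical in
/-- **Outlines.** For the special colours there are permutations along edges, one for each copy. -/
theorem init2 {r N : ℕ} {Q : Type} [Fintype Q] (hreg : ∀ v, (G.neighborSet v).ncard = r)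
    (j : Q → Fin m) (hj : Function.Injective j)
    (σ : Q → Fin h → Equiv.Perm V) (P : Q → Fin h → Set V)
    (hσ : ∀ c y u, u ∈ P c y → G.Adj u (σ c y u))
    (hout : ∀ u, h * (r * m) ≤ h * N + (univ.filter (fun x : Q × Fin h => u ∈ P x.1 x.2)).card)
    (hin : ∀ u, h * (r * m) ≤ h * N +
      (univ.filter (fun x : Q × Fin h => (σ x.1 x.2).symm u ∈ P x.1 x.2)).card) :
    ∃ col : Arc G m h → Q ⊕ Fin N,
      (∀ v c, (univ.filter (fun a : Arc G m h => a.1.1.1 = v ∧ col a = c)).card ≤ h) ∧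
      (∀ v c, (univ.filter (fun a : Arc G m h => a.1.1.2 = v ∧ col a = c)).card ≤ h) ∧
      (∀ a c, col a = Sum.inl c → ∃ z, a.1.1.1 ∈ P c z ∧ a.1.1.2 = σ c z a.1.1.1) ∧
      ∀ c z u, u ∈ P c z → ∃ a : Arc G m h, a.1.1.1 = u ∧ a.1.1.2 = σ c z u ∧
        col a = Sum.inl c := by
  -- special arcs
  let sp : Arc G m h → Prop := fun a => ∃ c : Q, j c = a.2.1 ∧ a.1.1.1 ∈ P c a.2.2 ∧
    a.1.1.2 = σ c a.2.2 a.1.1.1
  have hdeg : ∀ v, (univ.filter (fun u => G.Adj v u)).card = r := by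
    intro v
    rw [← hreg v]
    have h5 : G.neighborSet v = ((univ.filter (fun u => G.Adj v u) : Finset V) : Set V) := by
      ext u
      simp
    rw [h5, Set.ncard_coe_finset]
  have htail : ∀ v, (univ.filter (fun a : Arc G m h => a.1.1.1 = v)).card = h * (r * m) := by
    intro v
    have h1 : ((univ.filter (fun u => G.Adj v u)) ×ˢ (univ : Finset (Fin m × Fin h))).card =
        h * (r * m) := by
      rw [card_product, hdeg, card_univ, Fintype.card_prod, Fintype.card_fin, Fintype.card_fin]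
      ring
    rw [← h1]
    refine card_bij (fun a _ => (a.1.1.2, a.2)) ?_ ?_ ?_
    · intro a ha
      have h2 := (mem_filter.1 ha).2
      refine mem_product.2 ⟨mem_filter.2 ⟨mem_univ _, ?_⟩, mem_univ _⟩
      rw [← h2]
      exact a.1.2
    · intro a ha a' ha' h2
      have h3 : a.1.1.2 = a'.1.1.2 ∧ a.2 = a'.2 := Prod.ext_iff.1 h2
      have h4 := (mem_filter.1 ha).2
      have h5 := (mem_filter.1 ha').2
      exact Prod.ext (Subtype.ext (Prod.ext (h4.trans h5.symm) h3.1)) h3.2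
    · rintro ⟨u, xy⟩ hu
      have h2 := (mem_filter.1 (mem_product.1 hu).1).2
      exact ⟨(⟨(v, u), h2⟩, xy), mem_filter.2 ⟨mem_univ _, rfl⟩, rfl⟩
  have hhead : ∀ v, (univ.filter (fun a : Arc G m h => a.1.1.2 = v)).card = h * (r * m) := by
    intro v
    rw [← htail v]
    refine card_bij (fun a _ => (⟨(a.1.1.2, a.1.1.1), a.1.2.symm⟩, a.2)) ?_ ?_ ?_
    · intro a ha
      exact mem_filter.2 ⟨mem_univ _, (mem_filter.1 ha).2⟩
    · intro a _ a' _ h2
      have h3 := Prod.ext_iff.1 h2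
      have h4 : (a.1.1.2, a.1.1.1) = (a'.1.1.2, a'.1.1.1) := congrArg Subtype.val h3.1
      have h5 := Prod.ext_iff.1 h4
      exact Prod.ext (Subtype.ext (Prod.ext h5.2 h5.1)) h3.2
    · intro a ha
      exact ⟨(⟨(a.1.1.2, a.1.1.1), a.1.2.symm⟩, a.2),
        mem_filter.2 ⟨mem_univ _, (mem_filter.1 ha).2⟩, rfl⟩
  -- the number of special arcs
  have hinj : Function.Injective (fun x : Q × Fin h => (j x.1, x.2)) := by
    intro x y h1
    have h2 : j x.1 = j y.1 ∧ x.2 = y.2 := Prod.ext_iff.1 h1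
    exact Prod.ext (hj h2.1) h2.2
  have hst : ∀ v, (univ.filter (fun x : Q × Fin h => v ∈ P x.1 x.2)).card ≤
      (univ.filter (fun a : Arc G m h => a.1.1.1 = v ∧ sp a)).card := by
    intro v
    rw [← card_image_of_injective (univ.filter (fun x : Q × Fin h => v ∈ P x.1 x.2)) hinj]
    refine card_le_card_of_surjOn (fun a => (a.2.1, a.2.2)) ?_
    intro x hx
    obtain ⟨⟨c, y⟩, h2, rfl⟩ := mem_image.1 (mem_coe.1 hx)
    have h3 : v ∈ P c y := (mem_filter.1 h2).2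
    exact ⟨(⟨(v, σ c y v), hσ c y v h3⟩, (j c, y)),
      mem_coe.2 (mem_filter.2 ⟨mem_univ _, rfl, c, rfl, h3, rfl⟩), rfl⟩
  have hsh : ∀ v, (univ.filter (fun x : Q × Fin h => (σ x.1 x.2).symm v ∈ P x.1 x.2)).card ≤
      (univ.filter (fun a : Arc G m h => a.1.1.2 = v ∧ sp a)).card := by
    intro v
    rw [← card_image_of_injective
      (univ.filter (fun x : Q × Fin h => (σ x.1 x.2).symm v ∈ P x.1 x.2)) hinj]
    refine card_le_card_of_surjOn (fun a => (a.2.1, a.2.2)) ?_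
    intro x hx
    obtain ⟨⟨c, y⟩, h2, rfl⟩ := mem_image.1 (mem_coe.1 hx)
    have h3 : (σ c y).symm v ∈ P c y := (mem_filter.1 h2).2
    exact ⟨(⟨((σ c y).symm v, σ c y ((σ c y).symm v)), hσ c y _ h3⟩, (j c, y)),
      mem_coe.2 (mem_filter.2 ⟨mem_univ _, Equiv.apply_symm_apply _ _, c, rfl, h3, rfl⟩), rfl⟩
  -- the other arcs
  have hsplit : ∀ p : Arc G m h → Prop, (univ.filter (fun s : {a // ¬ sp a} => p s.1)).card +
      (univ.filter (fun a => p a ∧ sp a)).card = (univ.filter (fun a => p a)).card := by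
    intro p
    rw [← card_filter_add_card_filter_not (s := univ.filter (fun a => p a)) (fun a => sp a),
      filter_filter, filter_filter, add_comm]
    congr 1
    refine card_bij (fun s _ => s.1) ?_ ?_ ?_
    · intro s hs
      exact mem_filter.2 ⟨mem_univ _, (mem_filter.1 hs).2, s.2⟩
    · intro s _ s' _ h1
      exact Subtype.ext h1
    · intro a ha
      obtain ⟨-, h1, h2⟩ := mem_filter.1 ha
      exact ⟨⟨a, h2⟩, mem_filter.2 ⟨mem_univ _, h1⟩, rfl⟩
  obtain ⟨κ, hκ⟩ := eqc (fun s : {a : Arc G m h // ¬ sp a} => s.1.1.1.1)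
    (fun s : {a : Arc G m h // ¬ sp a} => s.1.1.1.2) h N
    (by
      intro v
      have h1 := hsplit (fun a => a.1.1.1 = v)
      have h2 := hst v
      have h3 := htail v
      have h4 := hout v
      omega)
    (by
      intro v
      have h1 := hsplit (fun a => a.1.1.2 = v)
      have h2 := hsh v
      have h3 := hhead v
      have h4 := hin v
      omega)
  let col : Arc G m h → Q ⊕ Fin N := fun a =>
    if hs : sp a then Sum.inl (Classical.choose hs) else Sum.inr (κ ⟨a, hs⟩)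
  have hcl : ∀ a c, col a = Sum.inl c → j c = a.2.1 ∧ a.1.1.1 ∈ P c a.2.2 ∧
      a.1.1.2 = σ c a.2.2 a.1.1.1 := by
    intro a c h1
    by_cases hs : sp a
    · have h2 : col a = Sum.inl (Classical.choose hs) := dif_pos hs
      rw [h2] at h1
      rw [← Sum.inl.inj h1]
      exact Classical.choose_spec hs
    · have h2 : col a = Sum.inr (κ ⟨a, hs⟩) := dif_neg hs
      rw [h2] at h1
      exact absurd h1 (by simp)
  have hcr : ∀ a c, col a = Sum.inr c → ∃ hs : ¬ sp a, κ ⟨a, hs⟩ = c := by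
    intro a c h1
    by_cases hs : sp a
    · have h2 : col a = Sum.inl (Classical.choose hs) := dif_pos hs
      rw [h2] at h1
      exact absurd h1 (by simp)
    · have h2 : col a = Sum.inr (κ ⟨a, hs⟩) := dif_neg hs
      rw [h2] at h1
      exact ⟨hs, Sum.inr.inj h1⟩
  have hh : (univ : Finset (Fin h)).card = h := by rw [card_univ, Fintype.card_fin]
  refine ⟨col, ?_, ?_, fun a c h1 => ⟨a.2.2, (hcl a c h1).2⟩, ?_⟩
  · rintro v (c | c)
    · refine le_trans (card_le_card_of_injOn (t := (univ : Finset (Fin h))) (fun a => a.2.2)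
        (fun _ _ => mem_coe.2 (mem_univ _)) ?_) (le_of_eq hh)
      intro a ha a' ha' h1
      rw [mem_coe, mem_filter] at ha ha'
      obtain ⟨h2, h3, h4⟩ := hcl a c ha.2.2
      obtain ⟨h5, h6, h7⟩ := hcl a' c ha'.2.2
      have h8 : a.1.1.1 = a'.1.1.1 := ha.2.1.trans ha'.2.1.symm
      have h1' : a.2.2 = a'.2.2 := h1
      refine Prod.ext (Subtype.ext (Prod.ext h8 ?_)) (Prod.ext (h2.symm.trans h5) h1)
      rw [h4, h7, h8, h1']
    · refine le_trans ?_ (hκ v c).1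
      refine le_trans (card_le_card (t := (univ.filter (fun s : {a : Arc G m h // ¬ sp a} =>
        s.1.1.1.1 = v ∧ κ s = c)).image (fun s => s.1)) ?_) card_image_le
      intro a ha
      obtain ⟨-, h1, h2⟩ := mem_filter.1 ha
      obtain ⟨hs, h3⟩ := hcr a c h2
      exact mem_image.2 ⟨⟨a, hs⟩, mem_filter.2 ⟨mem_univ _, h1, h3⟩, rfl⟩
  · rintro v (c | c)
    · refine le_trans (card_le_card_of_injOn (t := (univ : Finset (Fin h))) (fun a => a.2.2)
        (fun _ _ => mem_coe.2 (mem_univ _)) ?_) (le_of_eq hh)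
      intro a ha a' ha' h1
      rw [mem_coe, mem_filter] at ha ha'
      obtain ⟨h2, h3, h4⟩ := hcl a c ha.2.2
      obtain ⟨h5, h6, h7⟩ := hcl a' c ha'.2.2
      have h8 : a.1.1.2 = a'.1.1.2 := ha.2.1.trans ha'.2.1.symm
      have h1' : a.2.2 = a'.2.2 := h1
      refine Prod.ext (Subtype.ext (Prod.ext ?_ h8)) (Prod.ext (h2.symm.trans h5) h1)
      rw [h4, h7, h1'] at h8
      exact (σ c a'.2.2).injective h8
    · refine le_trans ?_ (hκ v c).2
      refine le_trans (card_le_card (t := (univ.filter (fun s : {a : Arc G m h // ¬ sp a} =>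
        s.1.1.1.2 = v ∧ κ s = c)).image (fun s => s.1)) ?_) card_image_le
      intro a ha
      obtain ⟨-, h1, h2⟩ := mem_filter.1 ha
      obtain ⟨hs, h3⟩ := hcr a c h2
      exact mem_image.2 ⟨⟨a, hs⟩, mem_filter.2 ⟨mem_univ _, h1, h3⟩, rfl⟩
  · intro c z u hu
    have hs : sp (⟨(u, σ c z u), hσ c z u hu⟩, (j c, z)) := ⟨c, rfl, hu, rfl⟩
    refine ⟨(⟨(u, σ c z u), hσ c z u hu⟩, (j c, z)), rfl, rfl, ?_⟩
    have h2 : col (⟨(u, σ c z u), hσ c z u hu⟩, (j c, z)) = Sum.inl (Classical.choose hs) :=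
      dif_pos hs
    rw [h2]
    exact congrArg Sum.inl (hj (Classical.choose_spec hs).1)

/-- **Proper edge colourings of even blow-ups of regular graphs with prescribed special colours.** -/
theorem lab2 {r N : ℕ} {Q : Type} [Finite Q] (hL : Nonempty (Q ⊕ Fin N)) (hm : m = 2 * h)
    (hreg : ∀ v, (G.neighborSet v).ncard = r)
    (j : Q → Fin m) (hj : Function.Injective j)
    (σ : Q → Fin h → Equiv.Perm V) (P : Q → Fin h → Set V)
    (hσ : ∀ c y u, u ∈ P c y → G.Adj u (σ c y u))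
    (hout : ∀ u, h * (r * m) ≤ h * N + {x : Q × Fin h | u ∈ P x.1 x.2}.ncard)
    (hin : ∀ u, h * (r * m) ≤ h * N + {x : Q × Fin h | (σ x.1 x.2).symm u ∈ P x.1 x.2}.ncard) :
    ∃ ψ : V × Fin m → V × Fin m → Q ⊕ Fin N, (∀ x y, ψ x y = ψ y x) ∧
      (∀ x y z, G.Adj x.1 y.1 → G.Adj x.1 z.1 → y ≠ z → ψ x y ≠ ψ x z) ∧
      (∀ x y c, G.Adj x.1 y.1 → ψ x y = Sum.inl c → ∃ z, (x.1 ∈ P c z ∧ y.1 = σ c z x.1) ∨
        (y.1 ∈ P c z ∧ x.1 = σ c z y.1)) ∧
      ∀ c z u, u ∈ P c z → ∃ i k : Fin m, ψ (u, i) (σ c z u, k) = Sum.inl c := by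
  classical
  have := Fintype.ofFinite Q
  have e1 : ∀ u, (univ.filter (fun x : Q × Fin h => u ∈ P x.1 x.2)).card =
      {x : Q × Fin h | u ∈ P x.1 x.2}.ncard := by
    intro u
    rw [← Set.ncard_coe_finset]
    congr 1
    ext c
    simp
  have e2 : ∀ u, (univ.filter (fun x : Q × Fin h => (σ x.1 x.2).symm u ∈ P x.1 x.2)).card =
      {x : Q × Fin h | (σ x.1 x.2).symm u ∈ P x.1 x.2}.ncard := by
    intro u
    rw [← Set.ncard_coe_finset]
    congr 1
    ext c
    simp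
  obtain ⟨col, h1, h2, h3, h3'⟩ := init2 (m := m) (h := h) hreg j hj σ P hσ
    (fun u => by
      have h4 := hout u
      rw [← e1] at h4
      convert h4) (fun u => by
      have h4 := hin u
      rw [← e2] at h4
      convert h4)
  obtain ⟨ψ, h4, h5, h6, h7⟩ := outline2 hm col (fun v c => by convert h1 v c)
    (fun v c => by convert h2 v c)
  refine ⟨ψ, h4, h5, ?_, ?_⟩
  · intro x y c hxy hc
    obtain ⟨a, h8, h9⟩ := h6 x y hxy
    rw [hc] at h9
    obtain ⟨z, h10, h11⟩ := h3 a c h9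
    rcases h8 with ⟨h12, h13⟩ | ⟨h12, h13⟩
    · refine ⟨z, Or.inl ?_⟩
      rw [← h12, ← h13]
      exact ⟨h10, h11⟩
    · refine ⟨z, Or.inr ?_⟩
      rw [← h12, ← h13]
      exact ⟨h10, h11⟩
  · intro c z u hu
    obtain ⟨a, h8, h9, h10⟩ := h3' c z u hu
    obtain ⟨x, y, h11, h12, h13⟩ := h7 a
    refine ⟨x.2, y.2, ?_⟩
    have h14 : (u, x.2) = x := Prod.ext (h8.symm.trans h11.symm) rfl
    have h15 : (σ c z u, y.2) = y := Prod.ext (h9.symm.trans h12.symm) rfl
    rw [h14, h15, h13, h10]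

end

end Pool.Agent.Q251.TE
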