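import Pool.Agent.Q251.TE.Ext

/-!
# Total colourings of blow-ups of regular graphs with a precoloured matching
-/

set_option autoImplicit false

namespace Pool.Agent.Q251.TE

open Finset SimpleGraph Pool.Agent.Q251.TC

theorem reg_ext {V : Type} [Finite V] {G : SimpleGraph V} {r h m : ℕ} (hr : 3 ≤ r)
    (hreg : ∀ v, (G.neighborSet v).ncard = r) (hnb : ∀ v, ¬ Bip G v) (hm : m = 2 * h)
    (hbig : 6 * Nat.card V ≤ h)
    (U : Set V) (π : Equiv.Perm V) (hπU : ∀ v ∈ U, π v ∈ U ∧ π (π v) = v ∧ G.Adj v (π v))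
    (hU3 : ∀ v ∈ U, ∀ w ∈ U, v ≠ w → (G.Adj v w ∨ ∃ x, G.Adj x v ∧ G.Adj x w) → w = π v)
    (α γ : V → ℕ) (hα : ∀ v ∈ U, α v < r * m + 2) (hγ : ∀ v ∈ U, γ v < r * m + 2)
    (hαα : ∀ v ∈ U, α v ≠ α (π v)) (hγα : ∀ v ∈ U, γ v ≠ α v) (hγγ : ∀ v ∈ U, γ (π v) = γ v) :
    ∃ (g : V → ℕ) (ψ : V × Fin m → V × Fin m → ℕ) (k : V → Fin m),
      (∀ v, g v < r * m + 2) ∧ (∀ x y, ψ x y < r * m + 2) ∧ (∀ u v, G.Adj u v → g u ≠ g v) ∧
      (∀ x y, ψ x y = ψ y x) ∧
      (∀ x y z, G.Adj x.1 y.1 → G.Adj x.1 z.1 → y ≠ z → ψ x y ≠ ψ x z) ∧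
      (∀ x y, G.Adj x.1 y.1 → ψ x y ≠ g x.1) ∧
      (∀ v ∈ U, g v = α v) ∧ ∀ v ∈ U, ψ (v, k v) (π v, k (π v)) = γ v := by
  classical
  have := Fintype.ofFinite V
  rcases isEmpty_or_nonempty V with hV | hV
  · exact ⟨fun _ => 0, fun _ _ => 0, fun v => hV.elim v, fun v => hV.elim v,
      fun x => hV.elim x.1, fun v => hV.elim v, fun x => hV.elim x.1, fun x => hV.elim x.1,
      fun x => hV.elim x.1, fun v => hV.elim v, fun v => hV.elim v⟩
  rw [Nat.card_eq_fintype_card] at hbig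
  obtain ⟨n, hn⟩ : ∃ n, n = Fintype.card V := ⟨_, rfl⟩
  rw [← hn] at hbig
  have hn1 : 0 < n := by rw [hn]; exact Fintype.card_pos
  have hrm : 3 * m ≤ r * m := Nat.mul_le_mul_right m hr
  -- the colours of the matching
  let UF : Finset V := univ.filter (fun v => v ∈ U)
  have hUF : ∀ v, v ∈ UF ↔ v ∈ U := fun v => by simp [UF]
  let A : Finset ℕ := UF.image α ∪ UF.image γ
  have hUc : UF.card ≤ n := by rw [hn]; exact card_le_univ _
  have hAc : A.card ≤ 2 * n := by
    refine (card_union_le _ _).trans ?_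
    have h1 := card_image_le (s := UF) (f := α)
    have h2 := card_image_le (s := UF) (f := γ)
    omega
  have hA1 : ∀ v ∈ U, α v ∈ A := fun v hv =>
    mem_union_left _ (mem_image_of_mem α ((hUF v).2 hv))
  have hA2 : ∀ v ∈ U, γ v ∈ A := fun v hv =>
    mem_union_right _ (mem_image_of_mem γ ((hUF v).2 hv))
  have hA3 : ∀ c ∈ A, c < r * m + 2 := by
    intro c hc
    rcases mem_union.1 hc with h1 | h1
    · obtain ⟨v, hv, rfl⟩ := mem_image.1 h1
      exact hα v ((hUF v).1 hv)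
    · obtain ⟨v, hv, rfl⟩ := mem_image.1 h1
      exact hγ v ((hUF v).1 hv)
  have hAr : A ⊆ range (r * m + 2) := fun c hc => mem_range.2 (hA3 c hc)
  -- private colours
  obtain ⟨R, hR⟩ : ∃ R : Finset ℕ, R = range (r * m + 2) \ A := ⟨_, rfl⟩
  have hRm : ∀ c, c ∈ R ↔ c < r * m + 2 ∧ c ∉ A := by
    intro c
    rw [hR, mem_sdiff, mem_range]
  have hRc : Fintype.card V ≤ Fintype.card {c // c ∈ R} := by
    rw [Fintype.card_coe, hR, card_sdiff_of_subset hAr, card_range, ← hn]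
    omega
  obtain ⟨b⟩ := Function.Embedding.nonempty_of_card_le hRc
  have hb1 : ∀ v, (b v).1 < r * m + 2 := fun v => ((hRm _).1 (b v).2).1
  have hb2 : ∀ v, (b v).1 ∉ A := fun v => ((hRm _).1 (b v).2).2
  have hb3 : ∀ v w, (b v).1 = (b w).1 → v = w := fun v w hvw => b.injective (Subtype.ext hvw)
  let g : V → ℕ := fun v => if v ∈ U then α v else (b v).1
  have hg1 : ∀ v, v ∈ U → g v = α v := fun v hv => if_pos hv
  have hg2 : ∀ v, v ∉ U → g v = (b v).1 := fun v hv => if_neg hv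
  have hgA : ∀ v, g v ∈ A → v ∈ U := by
    intro v hv
    by_contra h1
    rw [hg2 v h1] at hv
    exact hb2 v hv
  let S : Finset ℕ := A ∪ (univ.filter (fun v => v ∉ U)).image (fun v => (b v).1)
  have hAS : A ⊆ S := subset_union_left
  have hgS : ∀ v, g v ∈ S := by
    intro v
    by_cases hv : v ∈ U
    · rw [hg1 v hv]
      exact hAS (hA1 v hv)
    · rw [hg2 v hv]
      exact mem_union_right _ (mem_image.2 ⟨v, mem_filter.2 ⟨mem_univ _, hv⟩, rfl⟩)
  have hSc : S.card ≤ 3 * n := by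
    refine (card_union_le _ _).trans ?_
    have h1 : ((univ.filter (fun v => v ∉ U)).image (fun v => (b v).1)).card ≤ n := by
      refine card_image_le.trans ?_
      rw [hn]
      exact card_le_univ _
    omega
  have hSr : S ⊆ range (r * m + 2) := by
    intro c hc
    rcases mem_union.1 hc with h1 | h1
    · exact hAr h1
    · obtain ⟨v, -, rfl⟩ := mem_image.1 h1
      exact mem_range.2 (hb1 v)
  have hjc : Fintype.card {c // c ∈ S} ≤ Fintype.card (Fin m) := by
    rw [Fintype.card_coe, Fintype.card_fin]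
    omega
  obtain ⟨j⟩ := Function.Embedding.nonempty_of_card_le hjc
  obtain ⟨T, hT⟩ : ∃ T : Finset ℕ, T = range (r * m + 2) \ S := ⟨_, rfl⟩
  have hTm : ∀ c, c ∈ T ↔ c < r * m + 2 ∧ c ∉ S := by
    intro c
    rw [hT, mem_sdiff, mem_range]
  obtain ⟨N, hN⟩ : ∃ N, N = T.card := ⟨_, rfl⟩
  have hNS : N + S.card = r * m + 2 := by
    rw [hN, hT, card_sdiff_of_subset hSr, card_range]
    have := card_le_card hSr
    rw [card_range] at this
    omega
  have eN : {c // c ∈ T} ≃ Fin N := Finset.equivFinOfCardEq hN.symm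
  -- owners
  have hown : ∀ c, c ∈ S → c ∉ A → ∃ v, v ∉ U ∧ (b v).1 = c := by
    intro c hc hcA
    rcases mem_union.1 hc with h1 | h1
    · exact absurd h1 hcA
    · obtain ⟨v, hv, h2⟩ := mem_image.1 h1
      exact ⟨v, (mem_filter.1 hv).2, h2⟩
  let own : ℕ → V := fun c => if hc : ∃ v, v ∉ U ∧ (b v).1 = c then Classical.choose hc else
    Classical.arbitrary V
  have hown1 : ∀ c, c ∈ S → c ∉ A → own c ∉ U ∧ (b (own c)).1 = c := by
    intro c hc hcA
    have h1 := hown c hc hcA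
    have h2 : own c = Classical.choose h1 := dif_pos h1
    rw [h2]
    exact Classical.choose_spec h1
  have hown2 : ∀ c, c ∈ S → c ∉ A → ∀ u, g u = c ↔ u = own c := by
    intro c hc hcA u
    obtain ⟨h1, h2⟩ := hown1 c hc hcA
    constructor
    · intro h3
      have h4 : u ∉ U := by
        intro h5
        refine hcA ?_
        rw [← h3, hg1 u h5]
        exact hA1 u h5
      rw [hg2 u h4] at h3
      exact hb3 u _ (h3.trans h2.symm)
    · rintro rfl
      rw [hg2 _ h1, h2]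
  -- the permutations
  obtain ⟨s, hs1, hs2⟩ := perms hreg 3 hr
  have hτ : ∀ v, ∃ τ : Equiv.Perm V, τ v = v ∧ ∀ u, u ≠ v → G.Adj u (τ u) := fun v =>
    avoid hreg v (hnb v)
  choose τ hτ1 hτ2 using hτ
  have hlt : ∀ z : ℕ, z % 3 < 3 := fun z => Nat.mod_lt _ (by omega)
  let sm : ℕ → Equiv.Perm V := fun z => s ⟨z % 3, hlt z⟩
  have hsm1 : ∀ z u, G.Adj u (sm z u) := fun z u => hs1 _ u
  have hsmod : ∀ z, sm (z % 3) = sm z := by
    intro z
    show s ⟨z % 3 % 3, _⟩ = s ⟨z % 3, _⟩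
    congr 1
    exact Fin.ext (Nat.mod_mod _ _)
  have hsm2 : ∀ k l u, k < 3 → l < 3 → sm k u = sm l u → k = l := by
    intro k l u hk hl h1
    have h2 := hs2 _ _ u h1
    have h3 : k % 3 = l % 3 := congrArg Fin.val h2
    rw [Nat.mod_eq_of_lt hk, Nat.mod_eq_of_lt hl] at h3
    exact h3
  let σ : {c // c ∈ S} → Fin h → Equiv.Perm V := fun c z =>
    if c.1 ∈ A then (if (z : ℕ) = 0 then π else sm z) else τ (own c.1)
  let P : {c // c ∈ S} → Fin h → Set V := fun c z =>
    if c.1 ∈ A then (if (z : ℕ) = 0 then {u | u ∈ U ∧ γ u = c.1} else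
      {u | g u ≠ c.1 ∧ g (sm z u) ≠ c.1}) else {u | g u ≠ c.1}
  have hσ1 : ∀ (c : {c // c ∈ S}) (z : Fin h), c.1 ∈ A → (z : ℕ) = 0 → σ c z = π := by
    intro c z h1 h2
    simp only [σ]
    rw [if_pos h1, if_pos h2]
  have hσ2 : ∀ (c : {c // c ∈ S}) (z : Fin h), c.1 ∈ A → (z : ℕ) ≠ 0 → σ c z = sm z := by
    intro c z h1 h2
    simp only [σ]
    rw [if_pos h1, if_neg h2]
  have hσ3 : ∀ (c : {c // c ∈ S}) (z : Fin h), c.1 ∉ A → σ c z = τ (own c.1) := by
    intro c z h1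
    simp only [σ]
    rw [if_neg h1]
  have hP1 : ∀ (c : {c // c ∈ S}) (z : Fin h), c.1 ∈ A → (z : ℕ) = 0 → ∀ u, u ∈ P c z ↔ u ∈ U ∧ γ u = c.1 := by
    intro c z h1 h2 u
    simp only [P]
    rw [if_pos h1, if_pos h2]
    exact Iff.rfl
  have hP2 : ∀ (c : {c // c ∈ S}) (z : Fin h), c.1 ∈ A → (z : ℕ) ≠ 0 → ∀ u, u ∈ P c z ↔ g u ≠ c.1 ∧ g (sm z u) ≠ c.1 := by
    intro c z h1 h2 u
    simp only [P]
    rw [if_pos h1, if_neg h2]
    exact Iff.rfl
  have hP3 : ∀ (c : {c // c ∈ S}) (z : Fin h), c.1 ∉ A → ∀ u, u ∈ P c z ↔ g u ≠ c.1 := by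
    intro c z h1 u
    simp only [P]
    rw [if_neg h1]
    exact Iff.rfl
  have hPg : ∀ (c : {c // c ∈ S}) (z : Fin h) u, u ∈ P c z → g u ≠ c.1 ∧ g (σ c z u) ≠ c.1 := by
    intro c z u hu
    by_cases hcA : c.1 ∈ A
    · by_cases hz : (z : ℕ) = 0
      · obtain ⟨h1, h2⟩ := (hP1 c z hcA hz u).1 hu
        rw [hσ1 c z hcA hz, hg1 u h1, hg1 _ (hπU u h1).1, ← h2]
        refine ⟨(hγα u h1).symm, ?_⟩
        rw [← hγγ u h1]
        exact (hγα _ (hπU u h1).1).symm
      · rw [hσ2 c z hcA hz]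
        exact (hP2 c z hcA hz u).1 hu
    · have h1 := (hP3 c z hcA u).1 hu
      refine ⟨h1, fun h2 => h1 ?_⟩
      rw [hσ3 c z hcA, hown2 c.1 c.2 hcA] at h2
      rw [hown2 c.1 c.2 hcA]
      exact (τ (own c.1)).injective (h2.trans (hτ1 _).symm)
  have hadj : ∀ (c : {c // c ∈ S}) (z : Fin h) u, u ∈ P c z → G.Adj u (σ c z u) := by
    intro c z u hu
    by_cases hcA : c.1 ∈ A
    · by_cases hz : (z : ℕ) = 0
      · rw [hσ1 c z hcA hz]
        exact (hπU u ((hP1 c z hcA hz u).1 hu).1).2.2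
      · rw [hσ2 c z hcA hz]
        exact hsm1 _ u
    · rw [hσ3 c z hcA]
      refine hτ2 _ u (fun h1 => ?_)
      exact (hP3 c z hcA u).1 hu ((hown2 c.1 c.2 hcA u).2 h1)
  have hA3' : A.card ≤ h / 3 := by omega
  have hcard : Nat.card ({c // c ∈ S} × Fin h) = S.card * h := by
    rw [Nat.card_eq_fintype_card, Fintype.card_prod, Fintype.card_coe, Fintype.card_fin]
  have hkey : ∀ T : Set ({c // c ∈ S} × Fin h), Tᶜ.ncard ≤ 2 * h →
      h * (r * m) ≤ h * N + T.ncard := by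
    intro T hT
    have h1 := Set.ncard_add_ncard_compl T
    rw [hcard] at h1
    have h2 : h * N + S.card * h = h * (r * m) + 2 * h := by
      rw [mul_comm S.card h, ← mul_add, hNS]
      ring
    omega
  have hlbl : Function.Injective (fun c : {c // c ∈ S} => c.1) := Subtype.val_injective
  obtain ⟨ψ, h1, h2, h3, h4⟩ := lab2 (m := m) (h := h) (N := N) (G := G) ⟨Sum.inl ⟨g (Classical.arbitrary V), hgS _⟩⟩ hm hreg
    j j.injective σ P hadj
    (by
      intro u
      refine hkey _ ?_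
      refine loss (fun c : {c // c ∈ S} => c.1) hlbl A hA3' (g u) (fun k => sm k u) U g
        (three hU3 u _ (fun k => hsm1 k u) (fun k l hk hl h1 => hsm2 k l u hk hl h1)) _ ?_
      rintro ⟨c, z⟩ hx
      have hx' : u ∉ P c z := hx
      by_cases hcA : c.1 ∈ A
      · by_cases hz : (z : ℕ) = 0
        · exact Or.inr (Or.inl ⟨hcA, hz⟩)
        · rw [hP2 c z hcA hz, not_and_or, not_not, not_not] at hx'
          rcases hx' with h1 | h1
          · exact Or.inl h1.symm
          · refine Or.inr (Or.inr ?_)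
            show c.1 = g (sm ((z : ℕ) % 3) u) ∧ sm ((z : ℕ) % 3) u ∈ U
            rw [hsmod]
            exact ⟨h1.symm, hgA _ (by rw [h1]; exact hcA)⟩
      · rw [hP3 c z hcA, not_not] at hx'
        exact Or.inl hx'.symm)
    (by
      intro u
      refine hkey _ ?_
      refine loss (fun c : {c // c ∈ S} => c.1) hlbl A hA3' (g u) (fun k => (sm k).symm u) U g
        (three hU3 u _ (fun k => ?_) (fun k l hk hl h1 => ?_)) _ ?_
      · have h1 := hsm1 k ((sm k).symm u)
        rw [Equiv.apply_symm_apply] at h1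
        exact h1.symm
      · have h1' : (sm k).symm u = (sm l).symm u := h1
        refine hsm2 k l ((sm k).symm u) hk hl ?_
        rw [Equiv.apply_symm_apply, h1', Equiv.apply_symm_apply]
      rintro ⟨c, z⟩ hx
      have hx' : (σ c z).symm u ∉ P c z := hx
      by_cases hcA : c.1 ∈ A
      · by_cases hz : (z : ℕ) = 0
        · exact Or.inr (Or.inl ⟨hcA, hz⟩)
        · rw [hσ2 c z hcA hz, hP2 c z hcA hz, not_and_or, not_not, not_not,
            Equiv.apply_symm_apply] at hx'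
          rcases hx' with h1 | h1
          · refine Or.inr (Or.inr ?_)
            show c.1 = g ((sm ((z : ℕ) % 3)).symm u) ∧ (sm ((z : ℕ) % 3)).symm u ∈ U
            rw [hsmod]
            exact ⟨h1.symm, hgA _ (by rw [h1]; exact hcA)⟩
          · exact Or.inl h1.symm
      · rw [hσ3 c z hcA, hP3 c z hcA, not_not, hown2 c.1 c.2 hcA] at hx'
        refine Or.inl ?_
        show c.1 = g u
        have h5 : u = own c.1 := by
          have h6 := congrArg (τ (own c.1)) hx'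
          rw [Equiv.apply_symm_apply, hτ1] at h6
          exact h6
        exact ((hown2 c.1 c.2 hcA u).2 h5).symm)
  -- the labels
  let lb : {c // c ∈ S} ⊕ Fin N → ℕ := Sum.elim (fun c => c.1) (fun i => (eN.symm i).1)
  have hlb1 : ∀ c : {c // c ∈ S}, lb (Sum.inl c) = c.1 := fun _ => rfl
  have hlb2 : ∀ i, lb (Sum.inr i) ∉ S := fun i => ((hTm _).1 (eN.symm i).2).2
  have hlb3 : Function.Injective lb := by
    rintro (c | c) (d | d) h5
    · exact congrArg Sum.inl (Subtype.ext h5)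
    · exfalso
      refine hlb2 d ?_
      rw [← h5]
      exact c.2
    · exfalso
      refine hlb2 c ?_
      rw [h5]
      exact d.2
    · exact congrArg Sum.inr (eN.symm.injective (Subtype.ext h5))
  have hlb4 : ∀ x, lb x < r * m + 2 := by
    rintro (c | c)
    · exact mem_range.1 (hSr c.2)
    · exact ((hTm _).1 (eN.symm c).2).1
  -- the edges of the matching
  have hh0 : 0 < h := by omega
  let z0 : Fin h := ⟨0, hh0⟩
  have hm0 : 0 < m := by omega
  have hex : ∀ v, ∃ i l : Fin m, v ∈ U → lb (ψ (v, i) (π v, l)) = γ v := by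
    intro v
    by_cases hv : v ∈ U
    · have hc : (⟨γ v, hAS (hA2 v hv)⟩ : {c // c ∈ S}).1 ∈ A := hA2 v hv
      have h5 : v ∈ P ⟨γ v, hAS (hA2 v hv)⟩ z0 := (hP1 _ z0 hc rfl v).2 ⟨hv, rfl⟩
      obtain ⟨i, l, h6⟩ := h4 _ z0 v h5
      rw [hσ1 _ z0 hc rfl] at h6
      refine ⟨i, l, fun _ => ?_⟩
      rw [h6]
      exact hlb1 _
    · exact ⟨⟨0, hm0⟩, ⟨0, hm0⟩, fun h5 => absurd h5 hv⟩
  choose fi fl hfl using hex
  have o : V ≃ Fin n := Fintype.equivFinOfCardEq hn.symm
  let k : V → Fin m := fun v => if o v < o (π v) then fi v else fl (π v)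
  refine ⟨g, fun x y => lb (ψ x y), k, fun v => ?_, fun x y => hlb4 _, ?_, fun x y => ?_, ?_, ?_,
    hg1, ?_⟩
  · exact mem_range.1 (hSr (hgS v))
  · intro u v huv h5
    by_cases hu : u ∈ U
    · have hv : v ∈ U := hgA v (by rw [← h5, hg1 u hu]; exact hA1 u hu)
      have h6 := hU3 u hu v hv huv.ne (Or.inl huv)
      rw [hg1 u hu, hg1 v hv, h6] at h5
      exact hαα u hu h5
    · have hv : v ∉ U := by
        intro hv
        refine hu (hgA u ?_)
        rw [h5, hg1 v hv]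
        exact hA1 v hv
      rw [hg2 u hu, hg2 v hv] at h5
      exact huv.ne (hb3 u v h5)
  · show lb (ψ x y) = lb (ψ y x)
    rw [h1]
  · intro x y z hxy hxz hne h5
    exact h2 x y z hxy hxz hne (hlb3 h5)
  · intro x y hxy h5
    have h5' : lb (ψ x y) = g x.1 := h5
    rcases hc : ψ x y with c | i
    · rw [hc] at h5'
      obtain ⟨z, h6 | h6⟩ := h3 x y c hxy hc
      · exact (hPg c z _ h6.1).1 h5'.symm
      · have h7 := (hPg c z _ h6.1).2
        rw [← h6.2] at h7
        exact h7 h5'.symm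
    · rw [hc] at h5'
      refine hlb2 i ?_
      rw [h5']
      exact hgS _
  · intro v hv
    show lb (ψ (v, k v) (π v, k (π v))) = γ v
    obtain ⟨h5, h6, h7⟩ := hπU v hv
    have hne : o v ≠ o (π v) := fun h8 => h7.ne (o.injective h8)
    by_cases h8 : o v < o (π v)
    · have e1 : k v = fi v := if_pos h8
      have e2 : k (π v) = fl v := by
        have h9 : k (π v) = fl (π (π v)) := if_neg (by rw [h6]; exact not_lt.2 h8.le)
        rw [h9, h6]
      rw [e1, e2]
      exact hfl v hv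
    · have h8' : o (π v) < o v := lt_of_le_of_ne (not_lt.1 h8) hne.symm
      have e1 : k v = fl (π v) := if_neg h8
      have e2 : k (π v) = fi (π v) := if_pos (by rw [h6]; exact h8')
      have h9 := hfl (π v) h5
      rw [h6, hγγ v hv] at h9
      rw [e1, e2, h1]
      exact h9

end Pool.Agent.Q251.TE
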