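import Pool.Agent.Q251.TE.Bip
import Pool.Agent.Y423.LA.Ori

/-!
# Total colourings of blow-ups with a precoloured matching: degrees one and two, and sums
-/

set_option autoImplicit false

namespace Pool.Agent.Q251.TE

open Finset SimpleGraph Pool.Agent.Q251.TC

theorem regExt_through {V : Type} [Finite V] {G : SimpleGraph V} {r h m : ℕ} (hr : 0 < r)
    (hreg : ∀ v, (G.neighborSet v).ncard = r) (hm : m = 2 * h) (hbig : 2 * Nat.card V ≤ h)
    (σ0 : Equiv.Perm V) (hσ0 : ∀ u, G.Adj u (σ0 u))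
    (hall : ∀ u v, G.Adj u v → σ0 u = v ∨ σ0 v = u) : RegExt G r m := by
  classical
  have := Fintype.ofFinite V
  intro U p hp hU3 α γ hα hγ hαα hγα hγγ
  rcases isEmpty_or_nonempty V with hV | hV
  · exact ⟨fun _ => 0, fun _ _ => 0, fun v => hV.elim v, fun v => hV.elim v,
      fun x => hV.elim x.1, fun v => hV.elim v, fun x => hV.elim x.1, fun x => hV.elim x.1,
      fun x => hV.elim x.1, fun v => hV.elim v, fun v => hV.elim v⟩
  rw [Nat.card_eq_fintype_card] at hbig
  obtain ⟨n, hn⟩ : ∃ n, n = Fintype.card V := ⟨_, rfl⟩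
  rw [← hn] at hbig
  have hn1 : 0 < n := by rw [hn]; exact Fintype.card_pos
  have hrm : m ≤ r * m := Nat.le_mul_of_pos_left m hr
  let UF : Finset V := univ.filter (fun v => v ∈ U)
  have hUF : ∀ v, v ∈ UF ↔ v ∈ U := fun v => by simp [UF]
  let A : Finset ℕ := UF.image α ∪ UF.image γ
  have hUc : UF.card ≤ n := by rw [hn]; exact card_le_univ _
  have hAc : A.card ≤ 2 * n := by
    refine (card_union_le _ _).trans ?_
    have h1 := card_image_le (s := UF) (f := α)
    have h2 := card_image_le (s := UF) (f := γ)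
    omega
  have hA1 : ∀ v ∈ U, α v ∈ A := fun v hv =>
    mem_union_left _ (mem_image_of_mem α ((hUF v).2 hv))
  have hA2 : ∀ v ∈ U, γ v ∈ A := fun v hv =>
    mem_union_right _ (mem_image_of_mem γ ((hUF v).2 hv))
  have hA3 : ∀ c ∈ A, c < r * m + 2 := by
    intro c hc
    rcases mem_union.1 hc with h1 | h1
    · obtain ⟨v, hv, rfl⟩ := mem_image.1 h1
      exact hα v ((hUF v).1 hv)
    · obtain ⟨v, hv, rfl⟩ := mem_image.1 h1
      exact hγ v ((hUF v).1 hv)
  have hAr : A ⊆ range (r * m + 2) := fun c hc => mem_range.2 (hA3 c hc)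
  obtain ⟨R, hR⟩ : ∃ R : Finset ℕ, R = range (r * m + 2) \ A := ⟨_, rfl⟩
  have hRm : ∀ c, c ∈ R ↔ c < r * m + 2 ∧ c ∉ A := by
    intro c
    rw [hR, mem_sdiff, mem_range]
  have hRc : Fintype.card V ≤ Fintype.card {c // c ∈ R} := by
    rw [Fintype.card_coe, hR, card_sdiff_of_subset hAr, card_range, ← hn]
    omega
  obtain ⟨b⟩ := Function.Embedding.nonempty_of_card_le hRc
  have hb1 : ∀ v, (b v).1 < r * m + 2 := fun v => ((hRm _).1 (b v).2).1
  have hb2 : ∀ v, (b v).1 ∉ A := fun v => ((hRm _).1 (b v).2).2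
  have hb3 : ∀ v w, (b v).1 = (b w).1 → v = w := fun v w hvw => b.injective (Subtype.ext hvw)
  let g : V → ℕ := fun v => if v ∈ U then α v else (b v).1
  have hg1 : ∀ v, v ∈ U → g v = α v := fun v hv => if_pos hv
  have hg2 : ∀ v, v ∉ U → g v = (b v).1 := fun v hv => if_neg hv
  have hgA : ∀ v, g v ∈ A → v ∈ U := by
    intro v hv
    by_contra h1
    rw [hg2 v h1] at hv
    exact hb2 v hv
  let S : Finset ℕ := A ∪ (univ.filter (fun v => v ∉ U)).image (fun v => (b v).1)
  have hAS : A ⊆ S := subset_union_left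
  have hgS : ∀ v, g v ∈ S := by
    intro v
    by_cases hv : v ∈ U
    · rw [hg1 v hv]
      exact hAS (hA1 v hv)
    · rw [hg2 v hv]
      exact mem_union_right _ (mem_image.2 ⟨v, mem_filter.2 ⟨mem_univ _, hv⟩, rfl⟩)
  have hSc : S.card ≤ 3 * n := by
    refine (card_union_le _ _).trans ?_
    have h1 : ((univ.filter (fun v => v ∉ U)).image (fun v => (b v).1)).card ≤ n := by
      refine card_image_le.trans ?_
      rw [hn]
      exact card_le_univ _
    omega
  have hSr : S ⊆ range (r * m + 2) := by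
    intro c hc
    rcases mem_union.1 hc with h1 | h1
    · exact hAr h1
    · obtain ⟨v, -, rfl⟩ := mem_image.1 h1
      exact mem_range.2 (hb1 v)
  have hjc : Fintype.card {c // c ∈ S} ≤ Fintype.card (Fin m) := by
    rw [Fintype.card_coe, Fintype.card_fin]
    omega
  obtain ⟨j⟩ := Function.Embedding.nonempty_of_card_le hjc
  obtain ⟨T, hT⟩ : ∃ T : Finset ℕ, T = range (r * m + 2) \ S := ⟨_, rfl⟩
  have hTm : ∀ c, c ∈ T ↔ c < r * m + 2 ∧ c ∉ S := by
    intro c
    rw [hT, mem_sdiff, mem_range]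
  obtain ⟨N, hN⟩ : ∃ N, N = T.card := ⟨_, rfl⟩
  have hNS : N + S.card = r * m + 2 := by
    rw [hN, hT, card_sdiff_of_subset hSr, card_range]
    have := card_le_card hSr
    rw [card_range] at this
    omega
  have eN : {c // c ∈ T} ≃ Fin N := Finset.equivFinOfCardEq hN.symm
  let P : {c // c ∈ S} → Fin h → Set V := fun c _ => {u | g u ≠ c.1 ∧ g (σ0 u) ≠ c.1}
  have hcard : Nat.card ({c // c ∈ S} × Fin h) = S.card * h := by
    rw [Nat.card_eq_fintype_card, Fintype.card_prod, Fintype.card_coe, Fintype.card_fin]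
  have hkey : ∀ (c0 c1 : ℕ) (X : Set ({c // c ∈ S} × Fin h)),
      (∀ x, x ∉ X → x.1.1 = c0 ∨ x.1.1 = c1) → h * (r * m) ≤ h * N + X.ncard := by
    intro c0 c1 X hX
    have h1 := Set.ncard_add_ncard_compl X
    rw [hcard] at h1
    have h2 : h * N + S.card * h = h * (r * m) + 2 * h := by
      rw [mul_comm S.card h, ← mul_add, hNS]
      ring
    have h3 : ∀ c : ℕ, {x : {c // c ∈ S} × Fin h | x.1.1 = c}.ncard ≤ h := by
      intro c
      have h4 : {x : {c // c ∈ S} × Fin h | x.1.1 = c}.ncard ≤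
          (Set.univ : Set (Fin h)).ncard := by
        refine Set.ncard_le_ncard_of_injOn (fun x => x.2) (fun _ _ => Set.mem_univ _) ?_
          (Set.toFinite _)
        intro x hx y hy hxy
        have hx' : x.1.1 = c := hx
        have hy' : y.1.1 = c := hy
        exact Prod.ext (Subtype.ext (hx'.trans hy'.symm)) hxy
      rwa [Set.ncard_univ, Nat.card_eq_fintype_card, Fintype.card_fin] at h4
    have h4 : Xᶜ ⊆ {x : {c // c ∈ S} × Fin h | x.1.1 = c0} ∪
        {x : {c // c ∈ S} × Fin h | x.1.1 = c1} := by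
      intro x hx
      exact hX x hx
    have h5 := Set.ncard_le_ncard h4 (Set.toFinite _)
    have h6 := Set.ncard_union_le {x : {c // c ∈ S} × Fin h | x.1.1 = c0}
      {x : {c // c ∈ S} × Fin h | x.1.1 = c1}
    have h7 := h3 c0
    have h8 := h3 c1
    omega
  obtain ⟨ψ, h1, h2, h3, h4⟩ := lab2 (m := m) (h := h) (N := N) (G := G)
    ⟨Sum.inl ⟨g (Classical.arbitrary V), hgS _⟩⟩ hm hreg
    j j.injective (fun _ _ => σ0) P (fun _ _ u _ => hσ0 u)
    (by
      intro u
      refine hkey (g u) (g (σ0 u)) _ ?_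
      rintro ⟨c, z⟩ hx
      have hx' : ¬ (g u ≠ c.1 ∧ g (σ0 u) ≠ c.1) := hx
      rw [not_and_or, not_not, not_not] at hx'
      exact hx'.imp Eq.symm Eq.symm)
    (by
      intro u
      refine hkey (g (σ0.symm u)) (g u) _ ?_
      rintro ⟨c, z⟩ hx
      have hx' : ¬ (g (σ0.symm u) ≠ c.1 ∧ g (σ0 (σ0.symm u)) ≠ c.1) := hx
      rw [not_and_or, not_not, not_not, Equiv.apply_symm_apply] at hx'
      exact hx'.imp Eq.symm Eq.symm)
  let lb : {c // c ∈ S} ⊕ Fin N → ℕ := Sum.elim (fun c => c.1) (fun i => (eN.symm i).1)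
  have hlb1 : ∀ c : {c // c ∈ S}, lb (Sum.inl c) = c.1 := fun _ => rfl
  have hlb2 : ∀ i, lb (Sum.inr i) ∉ S := fun i => ((hTm _).1 (eN.symm i).2).2
  have hlb3 : Function.Injective lb := by
    rintro (c | c) (d | d) h5
    · exact congrArg Sum.inl (Subtype.ext h5)
    · exfalso
      refine hlb2 d ?_
      rw [← h5]
      exact c.2
    · exfalso
      refine hlb2 c ?_
      rw [h5]
      exact d.2
    · exact congrArg Sum.inr (eN.symm.injective (Subtype.ext h5))
  have hlb4 : ∀ x, lb x < r * m + 2 := by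
    rintro (c | c)
    · exact mem_range.1 (hSr c.2)
    · exact ((hTm _).1 (eN.symm c).2).1
  have hh0 : 0 < h := by omega
  let z0 : Fin h := ⟨0, hh0⟩
  have hm0 : 0 < m := by omega
  have hex : ∀ v, ∃ i l : Fin m, v ∈ U → lb (ψ (v, i) (p v, l)) = γ v := by
    intro v
    by_cases hv : v ∈ U
    · obtain ⟨a1, a2, a3⟩ := hp v hv
      rcases hall v (p v) a3 with h5 | h5
      · have h6 : v ∈ P ⟨γ v, hAS (hA2 v hv)⟩ z0 := by
          show g v ≠ γ v ∧ g (σ0 v) ≠ γ v
          rw [h5, hg1 v hv, hg1 _ a1]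
          refine ⟨(hγα v hv).symm, ?_⟩
          rw [← hγγ v hv]
          exact (hγα _ a1).symm
        obtain ⟨i, l, h7⟩ := h4 _ z0 v h6
        rw [h5] at h7
        refine ⟨i, l, fun _ => ?_⟩
        rw [h7]
        exact hlb1 _
      · have h6 : p v ∈ P ⟨γ v, hAS (hA2 v hv)⟩ z0 := by
          show g (p v) ≠ γ v ∧ g (σ0 (p v)) ≠ γ v
          rw [h5, hg1 v hv, hg1 _ a1]
          refine ⟨?_, (hγα v hv).symm⟩
          rw [← hγγ v hv]
          exact (hγα _ a1).symm
        obtain ⟨i, l, h7⟩ := h4 _ z0 (p v) h6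
        rw [h5, h1] at h7
        refine ⟨l, i, fun _ => ?_⟩
        rw [h7]
        exact hlb1 _
    · exact ⟨⟨0, hm0⟩, ⟨0, hm0⟩, fun h5 => absurd h5 hv⟩
  choose fi fl hfl using hex
  have o : V ≃ Fin n := Fintype.equivFinOfCardEq hn.symm
  let k : V → Fin m := fun v => if o v < o (p v) then fi v else fl (p v)
  refine ⟨g, fun x y => lb (ψ x y), k, fun v => ?_, fun x y => hlb4 _, ?_, fun x y => ?_, ?_, ?_,
    hg1, ?_⟩
  · exact mem_range.1 (hSr (hgS v))
  · intro u v huv h5
    by_cases hu : u ∈ U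
    · have hv : v ∈ U := hgA v (by rw [← h5, hg1 u hu]; exact hA1 u hu)
      have h6 := hU3 u hu v hv huv.ne (Or.inl huv)
      rw [hg1 u hu, hg1 v hv, h6] at h5
      exact hαα u hu h5
    · have hv : v ∉ U := by
        intro hv
        refine hu (hgA u ?_)
        rw [h5, hg1 v hv]
        exact hA1 v hv
      rw [hg2 u hu, hg2 v hv] at h5
      exact huv.ne (hb3 u v h5)
  · show lb (ψ x y) = lb (ψ y x)
    rw [h1]
  · intro x y z hxy hxz hne h5
    exact h2 x y z hxy hxz hne (hlb3 h5)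
  · intro x y hxy h5
    have h5' : lb (ψ x y) = g x.1 := h5
    rcases hc : ψ x y with c | i
    · rw [hc] at h5'
      obtain ⟨z, h6 | h6⟩ := h3 x y c hxy hc
      · exact h6.1.1 h5'.symm
      · have h7 := h6.1.2
        rw [← h6.2] at h7
        exact h7 h5'.symm
    · rw [hc] at h5'
      refine hlb2 i ?_
      rw [h5']
      exact hgS _
  · intro v hv
    show lb (ψ (v, k v) (p v, k (p v))) = γ v
    obtain ⟨h5, h6, h7⟩ := hp v hv
    have hne : o v ≠ o (p v) := fun h8 => h7.ne (o.injective h8)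
    by_cases h8 : o v < o (p v)
    · have e1 : k v = fi v := if_pos h8
      have e2 : k (p v) = fl v := by
        have h9 : k (p v) = fl (p (p v)) := if_neg (by rw [h6]; exact not_lt.2 h8.le)
        rw [h9, h6]
      rw [e1, e2]
      exact hfl v hv
    · have h8' : o (p v) < o v := lt_of_le_of_ne (not_lt.1 h8) hne.symm
      have e1 : k v = fl (p v) := if_neg h8
      have e2 : k (p v) = fi (p v) := if_pos (by rw [h6]; exact h8')
      have h9 := hfl (p v) h5
      rw [h6, hγγ v hv] at h9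
      rw [e1, e2, h1]
      exact h9

/-- Degree one. -/
theorem regExt_one {V : Type} [Finite V] {G : SimpleGraph V} {h m : ℕ}
    (hreg : ∀ v, (G.neighborSet v).ncard = 1) (hm : m = 2 * h) (hbig : 2 * Nat.card V ≤ h) :
    RegExt G 1 m := by
  have := Fintype.ofFinite V
  obtain ⟨σ, hσ⟩ := exists_perm one_pos hreg
  refine regExt_through one_pos hreg hm hbig σ hσ (fun u v huv => Or.inl ?_)
  obtain ⟨w, hw⟩ := Set.ncard_eq_one.1 (hreg u)
  have h1 : σ u ∈ G.neighborSet u := hσ u
  have h2 : v ∈ G.neighborSet u := huv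
  rw [hw, Set.mem_singleton_iff] at h1 h2
  rw [h1, h2]

/-- Degree two. -/
theorem regExt_two {V : Type} [Finite V] {G : SimpleGraph V} {h m : ℕ}
    (hreg : ∀ v, (G.neighborSet v).ncard = 2) (hm : m = 2 * h) (hbig : 2 * Nat.card V ≤ h) :
    RegExt G 2 m := by
  obtain ⟨o⟩ := Pool.Agent.Y423.LA.exists_ori G hreg
  refine regExt_through two_pos hreg hm hbig ⟨o.s, o.p, o.ps, o.sp⟩
    (fun u => (o.adj _ _).2 (Or.inl rfl)) (fun u v huv => ?_)
  rcases (o.adj u v).1 huv with h1 | h1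
  · exact Or.inl h1.symm
  · exact Or.inr h1.symm

/-- Disjoint unions. -/
theorem regExt_sum {V W : Type} {G : SimpleGraph V} {Γ : SimpleGraph W} {r m : ℕ}
    (h1 : RegExt G r m) (h2 : RegExt Γ r m) : RegExt (G ⊕g Γ) r m := by
  classical
  intro U p hp hU3 α γ hα hγ hαα hγα hγγ
  let p1 : V → V := fun v => Sum.elim id (fun _ => v) (p (Sum.inl v))
  let p2 : W → W := fun w => Sum.elim (fun _ => w) id (p (Sum.inr w))
  have hp1 : ∀ v, Sum.inl v ∈ U → p (Sum.inl v) = Sum.inl (p1 v) := by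
    intro v hv
    have h3 := (hp _ hv).2.2
    rcases hc : p (Sum.inl v) with w | w
    · simp only [p1]
      rw [hc]
      rfl
    · rw [hc] at h3
      exact absurd h3 (by simp)
  have hp2 : ∀ w, Sum.inr w ∈ U → p (Sum.inr w) = Sum.inr (p2 w) := by
    intro w hw
    have h3 := (hp _ hw).2.2
    rcases hc : p (Sum.inr w) with v | v
    · rw [hc] at h3
      exact absurd h3 (by simp)
    · simp only [p2]
      rw [hc]
      rfl
  obtain ⟨g, ψ, k, k1, k2, k3, k4, k5, k6, k7, k8⟩ := h1 {v | Sum.inl v ∈ U} p1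
    (by
      intro v hv
      obtain ⟨h3, h4, h5⟩ := hp _ hv
      rw [hp1 v hv] at h3 h4 h5
      rw [hp1 _ h3] at h4
      exact ⟨h3, Sum.inl.inj h4, by simpa using h5⟩)
    (by
      intro v hv w hw hne h3
      have h4 := hU3 _ hv _ hw (fun h5 => hne (Sum.inl.inj h5)) (by
        rcases h3 with h3 | ⟨x, h3, h4⟩
        · exact Or.inl (by simpa using h3)
        · exact Or.inr ⟨Sum.inl x, by simpa using h3, by simpa using h4⟩)
      rw [hp1 v hv] at h4
      exact Sum.inl.inj h4)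
    (fun v => α (Sum.inl v)) (fun v => γ (Sum.inl v)) (fun v hv => hα _ hv) (fun v hv => hγ _ hv)
    (fun v hv => by
      have h3 := hαα _ hv
      rw [hp1 v hv] at h3
      exact h3) (fun v hv => hγα _ hv)
    (fun v hv => by
      have h3 := hγγ _ hv
      rw [hp1 v hv] at h3
      exact h3)
  obtain ⟨g', ψ', k', l1, l2, l3, l4, l5, l6, l7, l8⟩ := h2 {v | Sum.inr v ∈ U} p2
    (by
      intro v hv
      obtain ⟨h3, h4, h5⟩ := hp _ hv
      rw [hp2 v hv] at h3 h4 h5
      rw [hp2 _ h3] at h4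
      exact ⟨h3, Sum.inr.inj h4, by simpa using h5⟩)
    (by
      intro v hv w hw hne h3
      have h4 := hU3 _ hv _ hw (fun h5 => hne (Sum.inr.inj h5)) (by
        rcases h3 with h3 | ⟨x, h3, h4⟩
        · exact Or.inl (by simpa using h3)
        · exact Or.inr ⟨Sum.inr x, by simpa using h3, by simpa using h4⟩)
      rw [hp2 v hv] at h4
      exact Sum.inr.inj h4)
    (fun v => α (Sum.inr v)) (fun v => γ (Sum.inr v)) (fun v hv => hα _ hv) (fun v hv => hγ _ hv)
    (fun v hv => by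
      have h3 := hαα _ hv
      rw [hp2 v hv] at h3
      exact h3) (fun v hv => hγα _ hv)
    (fun v hv => by
      have h3 := hγγ _ hv
      rw [hp2 v hv] at h3
      exact h3)
  let Ψ : (V ⊕ W) × Fin m → (V ⊕ W) × Fin m → ℕ := fun x y =>
    match x.1, y.1 with
    | Sum.inl v, Sum.inl w => ψ (v, x.2) (w, y.2)
    | Sum.inr v, Sum.inr w => ψ' (v, x.2) (w, y.2)
    | Sum.inl _, Sum.inr _ => 0
    | Sum.inr _, Sum.inl _ => 0
  refine ⟨Sum.elim g g', Ψ, Sum.elim k k', ?_, ?_, ?_, ?_, ?_, ?_, ?_, ?_⟩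
  · rintro (v | v)
    · exact k1 v
    · exact l1 v
  · rintro ⟨v | v, i⟩ ⟨w | w, l⟩
    · exact k2 _ _
    · show 0 < _
      omega
    · show 0 < _
      omega
    · exact l2 _ _
  · rintro (v | v) (w | w) h3
    · exact k3 v w (by simpa using h3)
    · exact absurd h3 (by simp)
    · exact absurd h3 (by simp)
    · exact l3 v w (by simpa using h3)
  · rintro ⟨v | v, i⟩ ⟨w | w, l⟩
    · exact k4 _ _
    · rfl
    · rfl
    · exact l4 _ _
  · rintro ⟨v | v, i⟩ ⟨w | w, l⟩ ⟨z | z, q⟩ h3 h4 hne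
    · exact k5 _ _ _ (by simpa using h3) (by simpa using h4) (fun h5 => hne (by
        obtain ⟨h6, h7⟩ := Prod.ext_iff.1 h5
        exact Prod.ext (congrArg Sum.inl h6) h7))
    · exact absurd h4 (by simp)
    · exact absurd h3 (by simp)
    · exact absurd h3 (by simp)
    · exact absurd h3 (by simp)
    · exact absurd h3 (by simp)
    · exact absurd h4 (by simp)
    · exact l5 _ _ _ (by simpa using h3) (by simpa using h4) (fun h5 => hne (by
        obtain ⟨h6, h7⟩ := Prod.ext_iff.1 h5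
        exact Prod.ext (congrArg Sum.inr h6) h7))
  · rintro ⟨v | v, i⟩ ⟨w | w, l⟩ h3
    · exact k6 (v, i) (w, l) (by simpa using h3)
    · exact absurd h3 (by simp)
    · exact absurd h3 (by simp)
    · exact l6 (v, i) (w, l) (by simpa using h3)
  · rintro (v | v) hv
    · exact k7 v hv
    · exact l7 v hv
  · rintro (v | v) hv
    · rw [hp1 v hv]
      exact k8 v hv
    · rw [hp2 v hv]
      exact l8 v hv

end Pool.Agent.Q251.TE
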